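import Pool.Agent.Lib.Pe46137.Network

/-!
More operations on switching networks: conjunction of a family, negated literals, substitution of
networks for the contacts of a graph.
-/

namespace Pool.Agent.Lib.Pe46137N

open Pool.Agent.Lib.Pe46137 Finset

variable {E : Type}

theorem comp_forall {M : Set E} {D : Set (Set E)} {ι : Type*} (s : Finset ι)
    {f : ι → Set E → Prop} {m : ℕ} (hf : ∀ i ∈ s, Comp M D (f i) m) :
    Comp M D (fun G => ∀ i ∈ s, f i G) (s.card * m + 1) := by
  classical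
  induction s using Finset.induction_on with
  | empty => simpa using comp_true M D
  | insert i s hi ih =>
    have h1 := (hf i (mem_insert_self _ _)).and (ih fun j hj => hf j (mem_insert_of_mem hj))
    rw [card_insert_of_notMem hi]
    refine (h1.mono ?_).congr ?_
    · ring_nf; omega
    · intro G _
      simp

theorem comp_nlit (M : Set E) (D : Set (Set E)) (e : E) (he : e ∉ M) :
    Comp M D (fun G => e ∉ G) 2 := by
  refine ⟨Bool, inferInstance, ⟨true, false, fun _ _ => False, fun _ _ _ => False,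
    fun e' _ _ => e' = e⟩, by simp, fun e' he' _ _ h => he (h ▸ he'), fun G _ =>
    ⟨fun h => ?_, fun h => ?_⟩⟩
  · intro hc
    have := eqv_closed (r := SwitchingNetwork.Closed _ G Gᶜ) {true} (by
      intro v w h
      simp only [SwitchingNetwork.Closed, and_false, exists_false, false_or] at h
      obtain ⟨e', h1, h2⟩ := h
      exact absurd hc (h2 ▸ h1)) h
    simp at this
  · exact Relation.EqvGen.rel _ _ (Or.inr (Or.inr ⟨e, h, rfl⟩))

/-- the graph `S` with the networks `N a b` in place of its contacts -/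
def substNet {S : Type} (W : S → S → Type) (N : ∀ a b, SwitchingNetwork E (W a b)) (a b : S) :
    SwitchingNetwork E (S ⊕ (Σ p : S × S, W p.1 p.2)) where
  source := Sum.inl a
  sink := Sum.inl b
  wire v w := (∃ p : S × S, v = Sum.inl p.1 ∧ w = Sum.inr ⟨p, (N p.1 p.2).source⟩) ∨
    (∃ p : S × S, v = Sum.inr ⟨p, (N p.1 p.2).sink⟩ ∧ w = Sum.inl p.2) ∨
    ∃ (p : S × S) (x y : W p.1 p.2), v = Sum.inr ⟨p, x⟩ ∧ w = Sum.inr ⟨p, y⟩ ∧
      (N p.1 p.2).wire x y
  pos e v w := ∃ (p : S × S) (x y : W p.1 p.2), v = Sum.inr ⟨p, x⟩ ∧ w = Sum.inr ⟨p, y⟩ ∧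
    (N p.1 p.2).pos e x y
  neg e v w := ∃ (p : S × S) (x y : W p.1 p.2), v = Sum.inr ⟨p, x⟩ ∧ w = Sum.inr ⟨p, y⟩ ∧
    (N p.1 p.2).neg e x y

theorem substNet_closed {S : Type} {W : S → S → Type} {N : ∀ a b, SwitchingNetwork E (W a b)}
    {a b : S} {P F : Set E} {v w : S ⊕ (Σ p : S × S, W p.1 p.2)} :
    (substNet W N a b).Closed P F v w ↔
      (∃ p : S × S, v = Sum.inl p.1 ∧ w = Sum.inr ⟨p, (N p.1 p.2).source⟩) ∨
      (∃ p : S × S, v = Sum.inr ⟨p, (N p.1 p.2).sink⟩ ∧ w = Sum.inl p.2) ∨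
      ∃ (p : S × S) (x y : W p.1 p.2), v = Sum.inr ⟨p, x⟩ ∧ w = Sum.inr ⟨p, y⟩ ∧
        (N p.1 p.2).Closed P F x y := by
  constructor
  · rintro ((h | h | ⟨p, x, y, h1, h2, h3⟩) | ⟨e, he, ⟨p, x, y, h1, h2, h3⟩⟩ |
      ⟨e, he, ⟨p, x, y, h1, h2, h3⟩⟩)
    · exact Or.inl h
    · exact Or.inr (Or.inl h)
    · exact Or.inr (Or.inr ⟨p, x, y, h1, h2, Or.inl h3⟩)
    · exact Or.inr (Or.inr ⟨p, x, y, h1, h2, Or.inr (Or.inl ⟨e, he, h3⟩)⟩)
    · exact Or.inr (Or.inr ⟨p, x, y, h1, h2, Or.inr (Or.inr ⟨e, he, h3⟩)⟩)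
  · rintro (h | h | ⟨p, x, y, h1, h2, h3⟩)
    · exact Or.inl (Or.inl h)
    · exact Or.inl (Or.inr (Or.inl h))
    · rcases h3 with h3 | ⟨e, he, h3⟩ | ⟨e, he, h3⟩
      · exact Or.inl (Or.inr (Or.inr ⟨p, x, y, h1, h2, h3⟩))
      · exact Or.inr (Or.inl ⟨e, he, ⟨p, x, y, h1, h2, h3⟩⟩)
      · exact Or.inr (Or.inr ⟨e, he, ⟨p, x, y, h1, h2, h3⟩⟩)

theorem comp_graph {M : Set E} {D : Set (Set E)} {S : Type} [Fintype S]
    {c : S → S → Set E → Prop} {m : ℕ} (hc : ∀ a b, Comp M D (c a b) m) (a b : S) :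
    Comp M D (fun G => Relation.EqvGen (fun x y => c x y G) a b)
      (Fintype.card S + Fintype.card S * Fintype.card S * m) := by
  choose W hW N h1 h2 h3 using hc
  have hcard : Fintype.card (S ⊕ (Σ p : S × S, W p.1 p.2)) ≤
      Fintype.card S + Fintype.card S * Fintype.card S * m := by
    rw [Fintype.card_sum, Fintype.card_sigma]
    refine Nat.add_le_add_left ?_ _
    refine (Finset.sum_le_card_nsmul _ _ m fun p _ => h1 p.1 p.2).trans ?_
    simp
  refine ⟨S ⊕ (Σ p : S × S, W p.1 p.2), inferInstance, substNet W N a b, hcard, ?_,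
    fun G hG => ⟨fun h => ?_, fun h => ?_⟩⟩
  · rintro e he v w ⟨p, x, y, _, _, h⟩
    exact h2 _ _ e he _ _ h
  · -- soundness
    set T : Set S := {x | Relation.EqvGen (fun x y => c x y G) a x} with hT
    have hTc : ∀ x y, c x y G → (x ∈ T ↔ y ∈ T) := fun x y hxy => eqv_iff hxy a
    have key := eqv_closed (r := (substNet W N a b).Closed G Gᶜ)
      {v | (∃ x, v = Sum.inl x ∧ x ∈ T) ∨ ∃ (p : S × S) (x : W p.1 p.2), v = Sum.inr ⟨p, x⟩ ∧
        ((Relation.EqvGen ((N p.1 p.2).Closed G Gᶜ) (N p.1 p.2).source x ∧ p.1 ∈ T) ∨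
        (Relation.EqvGen ((N p.1 p.2).Closed G Gᶜ) (N p.1 p.2).sink x ∧ p.2 ∈ T))} ?_ h
    · have h4 := key.mp (Or.inl ⟨a, rfl, Relation.EqvGen.refl _⟩)
      rcases h4 with ⟨x, hx, hx2⟩ | ⟨p, x, hx, -⟩
      · have : b = x := Sum.inl_injective hx
        subst this
        exact hx2
      · exact absurd hx (by simp [substNet])
    · intro v w hvw
      rw [substNet_closed] at hvw
      rcases hvw with ⟨p, rfl, rfl⟩ | ⟨p, rfl, rfl⟩ | ⟨p, x, y, rfl, rfl, h⟩
      · constructor
        · rintro (⟨x, hx, hx2⟩ | ⟨q, x, hx, -⟩)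
          · have : p.1 = x := Sum.inl_injective hx
            exact Or.inr ⟨p, _, rfl, Or.inl ⟨Relation.EqvGen.refl _, this ▸ hx2⟩⟩
          · exact absurd hx (by simp)
        · rintro (⟨x, hx, hx2⟩ | ⟨q, x, hx, hx2⟩)
          · exact absurd hx (by simp)
          · have hq := Sum.inr_injective hx
            have hq1 : p = q := congrArg Sigma.fst hq
            subst hq1
            have hq2 : (N p.1 p.2).source = x := by simpa using hq
            subst hq2
            refine Or.inl ⟨p.1, rfl, ?_⟩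
            rcases hx2 with ⟨-, h⟩ | ⟨h, h'⟩
            · exact h
            · have h5 : c p.1 p.2 G := (h3 p.1 p.2 G hG).mp h.symm
              exact (hTc _ _ h5).mpr h'
      · constructor
        · rintro (⟨x, hx, hx2⟩ | ⟨q, x, hx, hx2⟩)
          · exact absurd hx (by simp)
          · have hq := Sum.inr_injective hx
            have hq1 : p = q := congrArg Sigma.fst hq
            subst hq1
            have hq2 : (N p.1 p.2).sink = x := by simpa using hq
            subst hq2
            refine Or.inl ⟨p.2, rfl, ?_⟩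
            rcases hx2 with ⟨h, h'⟩ | ⟨-, h⟩
            · have h5 : c p.1 p.2 G := (h3 p.1 p.2 G hG).mp h
              exact (hTc _ _ h5).mp h'
            · exact h
        · rintro (⟨x, hx, hx2⟩ | ⟨q, x, hx, -⟩)
          · have : p.2 = x := Sum.inl_injective hx
            exact Or.inr ⟨p, _, rfl, Or.inr ⟨Relation.EqvGen.refl _, this ▸ hx2⟩⟩
          · exact absurd hx (by simp)
      · constructor
        · rintro (⟨x', hx, hx2⟩ | ⟨q, x', hx, hx2⟩)
          · exact absurd hx (by simp)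
          · have hq := Sum.inr_injective hx
            have hq1 : p = q := congrArg Sigma.fst hq
            subst hq1
            have hq2 : x = x' := by simpa using hq
            subst hq2
            refine Or.inr ⟨p, y, rfl, ?_⟩
            rcases hx2 with ⟨h', h''⟩ | ⟨h', h''⟩
            · exact Or.inl ⟨(eqv_iff h _).mp h', h''⟩
            · exact Or.inr ⟨(eqv_iff h _).mp h', h''⟩
        · rintro (⟨x', hx, hx2⟩ | ⟨q, x', hx, hx2⟩)
          · exact absurd hx (by simp)
          · have hq := Sum.inr_injective hx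
            have hq1 : p = q := congrArg Sigma.fst hq
            subst hq1
            have hq2 : y = x' := by simpa using hq
            subst hq2
            refine Or.inr ⟨p, x, rfl, ?_⟩
            rcases hx2 with ⟨h', h''⟩ | ⟨h', h''⟩
            · exact Or.inl ⟨(eqv_iff h _).mpr h', h''⟩
            · exact Or.inr ⟨(eqv_iff h _).mpr h', h''⟩
  · -- completeness
    have hstep : ∀ x y, c x y G → Relation.EqvGen ((substNet W N a b).Closed G Gᶜ)
        (Sum.inl x) (Sum.inl y) := by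
      intro x y hxy
      have h4 := (h3 x y G hG).mpr hxy
      have h5 : Relation.EqvGen ((substNet W N a b).Closed G Gᶜ)
          (Sum.inr ⟨(x, y), (N x y).source⟩) (Sum.inr ⟨(x, y), (N x y).sink⟩) :=
        eqv_map (r := (N x y).Closed G Gᶜ) (r' := (substNet W N a b).Closed G Gᶜ)
          (fun z : W x y => (Sum.inr ⟨(x, y), z⟩ : S ⊕ (Σ p : S × S, W p.1 p.2)))
          (fun v w h => substNet_closed.mpr (Or.inr (Or.inr ⟨(x, y), v, w, rfl, rfl, h⟩))) h4
      refine (Relation.EqvGen.rel _ _ (substNet_closed.mpr (Or.inl ⟨(x, y), rfl, rfl⟩))).trans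
        _ _ _ (h5.trans _ _ _ (Relation.EqvGen.rel _ _ (substNet_closed.mpr
          (Or.inr (Or.inl ⟨(x, y), rfl, rfl⟩)))))
    change Relation.EqvGen ((substNet W N a b).Closed G Gᶜ) (Sum.inl a) (Sum.inl b)
    generalize (substNet W N a b).Closed G Gᶜ = r at hstep ⊢
    induction h with
    | rel x y h => exact hstep x y h
    | refl x => exact Relation.EqvGen.refl _
    | symm x y _ ih => exact ih.symm
    | trans x y z _ _ ih1 ih2 => exact ih1.trans _ _ _ ih2

end Pool.Agent.Lib.Pe46137N
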