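import Pool.Agent.Lib.Pe46137.PriceDefs

/-!
Locally nested digraphs, layered nested digraphs and clique-nested digraphs.
-/

namespace Pool.Agent.Lib.Pe46137N

open Pool.Agent.Lib.Pe46137

/-- the out-neighbourhood of `v` in the digraph with arc set `G` -/
def Out {V : Type*} (G : Set (V × V)) (v : V) : Set V := {w | (v, w) ∈ G}

/-- of two out-neighbours of a vertex, one has all out-neighbours of the other -/
def LocallyNested {V : Type*} (G : Set (V × V)) : Prop :=
  ∀ u v w, (u, v) ∈ G → (u, w) ∈ G → Out G v ⊆ Out G w ∨ Out G w ⊆ Out G v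

/-- locally nested after deleting the loops -/
def Nested {V : Type*} (G : Set (V × V)) : Prop := LocallyNested (G ∩ {e | e.1 ≠ e.2})

/-- the vertices have levels such that all arcs go from a level to the next one and vertices of the
same level have nested out-neighbourhoods -/
def LayeredNested {V : Type*} (G : Set (V × V)) : Prop :=
  ∃ h : V → ℕ, (∀ u v, (u, v) ∈ G → h v = h u + 1) ∧
    ∀ v w, h v = h w → Out G v ⊆ Out G w ∨ Out G w ⊆ Out G v

/-- equal, or joined by arcs in both directions -/
def Twin {V : Type*} (G : Set (V × V)) (u v : V) : Prop := u = v ∨ ((u, v) ∈ G ∧ (v, u) ∈ G)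

/-- the pairs of vertices in different classes of twins with an arc from the first class to the
second -/
def quot {V : Type*} (G : Set (V × V)) : Set (V × V) :=
  {e | ¬ Twin G e.1 e.2 ∧ ∃ a b, Twin G e.1 a ∧ Twin G e.2 b ∧ (a, b) ∈ G}

/-- being twins is transitive, and contracting the classes of twins gives a locally nested
digraph -/
def CliqueNested {V : Type*} (G : Set (V × V)) : Prop :=
  (∀ u v w, Twin G u v → Twin G v w → Twin G u w) ∧ LocallyNested (quot G)

theorem LayeredNested.nested {V : Type*} {G : Set (V × V)} (h : LayeredNested G) :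
    Nested G := by
  obtain ⟨h, h1, h2⟩ := h
  have hG : G ∩ {e | e.1 ≠ e.2} = G := by
    ext ⟨u, v⟩
    simp only [Set.mem_inter_iff, Set.mem_ofPred_eq, and_iff_left_iff_imp]
    rintro huv rfl
    have := h1 u u huv
    omega
  unfold Nested
  rw [hG]
  intro u v w huv huw
  exact h2 v w ((h1 u v huv).trans (h1 u w huw).symm)

/-- digraphs of out-degree at most one -/
theorem nested_of_outdegree_one {V : Type*} {G : Set (V × V)}
    (h : ∀ u v w, (u, v) ∈ G → (u, w) ∈ G → v = w) : Nested G ∧ CliqueNested G := by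
  refine ⟨?_, ?_, ?_⟩
  · intro u v w huv huw
    rw [h u v w huv.1 huw.1]
    exact Or.inl subset_rfl
  · rintro u v w (rfl | ⟨h1, h2⟩) h3
    · exact h3
    · rcases h3 with rfl | ⟨h3, h4⟩
      · exact Or.inr ⟨h1, h2⟩
      · exact Or.inl (h v u w h2 h3)
  · have hsym : ∀ u v, Twin G u v → Twin G v u := by
      rintro u v (rfl | ⟨h1, h2⟩)
      · exact Or.inl rfl
      · exact Or.inr ⟨h2, h1⟩
    have htr : ∀ u v w, Twin G u v → Twin G v w → Twin G u w := by
      rintro u v w (rfl | ⟨h1, h2⟩) h3
      · exact h3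
      · rcases h3 with rfl | ⟨h3, h4⟩
        · exact Or.inr ⟨h1, h2⟩
        · exact Or.inl (h v u w h2 h3)
    have key : ∀ u v w, (u, v) ∈ quot G → (u, w) ∈ quot G → Twin G v w := by
      rintro u v w ⟨huv, a, b, hua, hvb, hab⟩ ⟨huw, a', b', hua', hwb', hab'⟩
      simp only at huv hua hvb huw hua' hwb'
      have haa : Twin G a a' := htr _ _ _ (hsym _ _ hua) hua'
      rcases haa with rfl | ⟨h1, h2⟩
      · have := h a b b' hab hab'
        rw [← this] at hwb'
        exact htr _ _ _ hvb (hsym _ _ hwb')
      · exfalso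
        have hba : b = a' := h a b a' hab h1
        rw [hba] at hvb
        exact huv (htr _ _ _ hua' (hsym _ _ hvb))
    intro u v w huv huw
    have hvw := key u v w huv huw
    left
    rintro z ⟨hz, a, b, hva, hzb, hab⟩
    simp only at hz hva hzb
    exact ⟨fun h' => hz (htr _ _ _ hvw h'), a, b, htr _ _ _ (hsym _ _ hvw) hva, hzb, hab⟩

end Pool.Agent.Lib.Pe46137N
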