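import Pool.Agent.Lib.Pe46137N.Defs
import Pool.Agent.Lib.Pe46137.Explicit

/-!
The lower bound on clique-nested digraphs: few negations of a set of arcs with a large matching.
-/

namespace Pool.Agent.Lib.Pe46137N

open Pool.Agent.Lib.Pe46137 Finset

section

variable {n l q : ℕ}

/-- digraphs made of cliques, joined along a nested relation between consecutive layers -/
theorem clique_nested_of {cl : Fin n → Cl l q} {D : Cl l q → Cl l q → Prop}
    (hD : ∀ u w, D u w → lay w = lay u + 1)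
    (hD' : ∀ u u', lay u = lay u' → (∀ w, D u w → D u' w) ∨ ∀ w, D u' w → D u w)
    {G : Set (Fin n × Fin n)} (h1 : ∀ a b, cl a = cl b → a ≠ b → (a, b) ∈ G)
    (h2 : ∀ u w, D u w → ∃ a b, cl a = u ∧ cl b = w ∧ (a, b) ∈ G)
    (h3 : ∀ a b, (a, b) ∈ G → cl a = cl b ∨ D (cl a) (cl b)) : CliqueNested G := by
  have htw : ∀ a b, Twin G a b ↔ cl a = cl b := by
    intro a b
    constructor
    · rintro (rfl | ⟨hab, hba⟩)
      · rfl
      · rcases h3 a b hab with h | h
        · exact h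
        · rcases h3 b a hba with h' | h'
          · exact h'.symm
          · have := hD _ _ h
            have := hD _ _ h'
            omega
    · intro h
      by_cases hab : a = b
      · exact Or.inl hab
      · exact Or.inr ⟨h1 a b h hab, h1 b a h.symm (Ne.symm hab)⟩
  have hq : ∀ a b, (a, b) ∈ quot G ↔ D (cl a) (cl b) := by
    intro a b
    simp only [quot, Set.mem_ofPred_eq, htw]
    constructor
    · rintro ⟨hne, a', b', ha, hb, hab⟩
      rcases h3 a' b' hab with h | h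
      · exact absurd (ha.trans (h.trans hb.symm)) hne
      · rwa [ha, hb]
    · intro h
      refine ⟨fun h' => ?_, ?_⟩
      · have := hD _ _ h
        rw [h'] at this
        omega
      · obtain ⟨a', b', ha, hb, hab⟩ := h2 _ _ h
        exact ⟨a', b', ha.symm, hb.symm, hab⟩
  refine ⟨?_, ?_⟩
  · intro u v w huv hvw
    rw [htw] at *
    exact huv.trans hvw
  · intro u v w huv huw
    rw [hq] at huv huw
    have e1 := hD _ _ huv
    have e2 := hD _ _ huw
    rcases hD' (cl v) (cl w) (by omega) with h | h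
    · left
      intro z hz
      have hz' : (v, z) ∈ quot G := hz
      exact (hq w z).mpr (h _ ((hq v z).mp hz'))
    · right
      intro z hz
      have hz' : (w, z) ∈ quot G := hz
      exact (hq v z).mpr (h _ ((hq w z).mp hz'))

/-- the relation of a path -/
def pathRelQ (p : Fin l ↪ Fin l × ZMod q) (u w : Cl l q) : Prop :=
  ∃ i ≤ l, u = walk p i ∧ w = walk p (i + 1)

/-- the relation of a cut -/
def cutRelQ (x : Fin l × ZMod q → Bool) (u w : Cl l q) : Prop :=
  lay w = lay u + 1 ∧ ¬ (hat x u = true ∧ hat x w = false)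

theorem cutRelQ_nested (x : Fin l × ZMod q → Bool) (u u' : Cl l q) (h : lay u = lay u') :
    (∀ w, cutRelQ x u w → cutRelQ x u' w) ∨ ∀ w, cutRelQ x u' w → cutRelQ x u w := by
  unfold cutRelQ
  rw [h]
  cases hu : hat x u with
  | false => right; intro w hw; exact ⟨hw.1, by simp⟩
  | true =>
    cases hu' : hat x u' with
    | false => left; intro w hw; exact ⟨hw.1, by simp⟩
    | true => left; intro w hw; exact hw

theorem pathRelQ_nested (P : Polynomial (ZMod q)) (u u' : Cl l q) (h : lay u = lay u') :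
    (∀ w, pathRelQ (pathOf l q P) u w → pathRelQ (pathOf l q P) u' w) ∨
      ∀ w, pathRelQ (pathOf l q P) u' w → pathRelQ (pathOf l q P) u w := by
  by_cases h1 : ∃ i ≤ l, u = walk (pathOf l q P) i
  · by_cases h2 : ∃ i ≤ l, u' = walk (pathOf l q P) i
    · obtain ⟨i, hi, rfl⟩ := h1
      obtain ⟨j, hj, rfl⟩ := h2
      rw [lay_walk _ (by omega), lay_walk _ (by omega)] at h
      rw [h]
      exact Or.inl fun _ h => h
    · right
      rintro w ⟨i, hi, h3, _⟩
      exact absurd ⟨i, hi, h3⟩ h2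
  · left
    rintro w ⟨i, hi, h3, _⟩
    exact absurd ⟨i, hi, h3⟩ h1

end

variable {n : ℕ} {W : Type*} [Fintype W]

theorem reach_of_walkQ {l q : ℕ} (p : Fin l ↪ Fin l × ZMod q) (cl : Fin n → Cl l q)
    {s t : Fin n} (hs : cl s = Sum.inr true) (ht : cl t = Sum.inr false)
    (G : Set (Fin n × Fin n)) (hG1 : ∀ a b, cl a = cl b → a ≠ b → (a, b) ∈ G)
    (hG2 : ∀ i ≤ l, ∃ a b, cl a = walk p i ∧ cl b = walk p (i + 1) ∧ (a, b) ∈ G) :
    Reachable G s t := by
  have mono : ∀ a b, cl a = cl b → Reachable G a b := by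
    intro a b h
    by_cases hab : a = b
    · rw [hab]; exact Relation.ReflTransGen.refl
    · exact Relation.ReflTransGen.single (hG1 a b h hab)
  have key : ∀ i ≤ l + 1, ∀ v, cl v = walk p i → Reachable G s v := by
    intro i
    induction i with
    | zero =>
      intro _ v hv
      exact mono s v (by rw [hs, hv, walk_zero])
    | succ i ih =>
      intro hi v hv
      obtain ⟨a, b, ha, hb, hab⟩ := hG2 i (by omega)
      exact ((ih (by omega) a ha).tail hab).trans (mono b v (by rw [hb, hv]))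
  exact key (l + 1) le_rfl t (by rw [ht, walk_last p le_rfl])

open Classical in
theorem paramQ {d l q : ℕ} [Fact q.Prime] (hd : 2 ≤ d) (hl : 2 ^ d ≤ l) (hlq : l ≤ q)
    (cl : Fin n → Cl l q) {s t : Fin n} (hs : cl s = Sum.inr true) (ht : cl t = Sum.inr false)
    (M : Finset (Fin n × Fin n)) {R k : ℕ} (hR0 : 0 < R) (hRk : 4 * k ≤ R)
    (hM : ∀ u w, R ≤ (M.filter (fun e => cl e.1 = u ∧ cl e.2 = w)).card)
    (N : SwitchingNetwork (Fin n × Fin n) W)
    (hN : ∀ G : Set (Fin n × Fin n), CliqueNested G →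
      G \ M = {a | cl a.1 = cl a.2 ∧ a.1 ≠ a.2} \ M → (N.Connects G Gᶜ ↔ Reachable G s t))
    (hneg : ∀ G : Set (Fin n × Fin n), CliqueNested G →
      G \ M = {a | cl a.1 = cl a.2 ∧ a.1 ≠ a.2} \ M → Reachable G s t →
      ∃ F ⊆ Gᶜ, (F ∩ (M : Set (Fin n × Fin n))).ncard ≤ k ∧ N.Connects G F) :
    (q : ℝ) ^ (d - 1) ≤ 2 * ((Fintype.card W : ℝ) ^ 2 * (9 * l + 1) ^ d) := by
  have hq0 : NeZero q := ⟨(Fact.out : q.Prime).ne_zero⟩
  -- the candidate arcs of every pair of clusters
  set S : Pr l q → Finset (Fin n × Fin n) := fun e =>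
    M.filter (fun a => cl a.1 = e.1.1 ∧ cl a.2 = e.1.2) with hS
  have hScard : ∀ e, R ≤ (S e).card := fun e => hM e.1.1 e.1.2
  have hS1 : ∀ e, ∀ a ∈ S e, cl a.1 = e.1.1 ∧ cl a.2 = e.1.2 :=
    fun e a ha => (mem_filter.mp ha).2
  have hSM : ∀ e, S e ⊆ M := fun e => filter_subset _ _
  have hSdisj : ∀ e e', e ≠ e' → Disjoint (S e) (S e') := by
    intro e e' hne
    rw [Finset.disjoint_left]
    intro a ha ha'
    apply hne
    obtain ⟨h1, h2⟩ := hS1 e a ha
    obtain ⟨h3, h4⟩ := hS1 e' a ha'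
    exact Subtype.ext (Prod.ext (h1.symm.trans h3) (h2.symm.trans h4))
  -- the negations used by the network
  have hsel : ∀ G : Set (Fin n × Fin n), ∃ F : Finset (Fin n × Fin n), (F ∩ M).card ≤ k ∧
      (CliqueNested G → G \ M = {a | cl a.1 = cl a.2 ∧ a.1 ≠ a.2} \ M → Reachable G s t →
        (F : Set (Fin n × Fin n)) ⊆ Gᶜ ∧ N.Connects G F) := by
    intro G
    by_cases hG : CliqueNested G ∧ G \ M = {a | cl a.1 = cl a.2 ∧ a.1 ≠ a.2} \ M ∧
        Reachable G s t
    · obtain ⟨F, hF, hk, hc⟩ := hneg G hG.1 hG.2.1 hG.2.2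
      refine ⟨F.toFinset, ?_, fun _ _ _ => ⟨by simpa using hF, by simpa using hc⟩⟩
      rw [← Set.ncard_coe_finset]
      simpa using hk
    · exact ⟨∅, by simp, fun h1 h2 h3 => absurd ⟨h1, h2, h3⟩ hG⟩
  choose Fs hFs1 hFs2 using hsel
  -- the family of paths
  have hfin : Finite (Polynomial.degreeLT (ZMod q) (d - 1)) :=
    Finite.of_equiv _ (Polynomial.degreeLTEquiv (ZMod q) (d - 1)).toEquiv.symm
  have hfin' : Fintype (Polynomial.degreeLT (ZMod q) (d - 1)) := Fintype.ofFinite _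
  set Fm := Polynomial.degreeLT (ZMod q) (d - 1) with hFm
  set p : Fm → (Fin l ↪ Fin l × ZMod q) := fun f => pathOf l q f.1 with hp
  set E : Fm → Finset (Pr l q) := fun f =>
    univ.filter (fun e => ∃ i ≤ l, e.1 = (walk (p f) i, walk (p f) (i + 1))) with hE
  set G : Fm → (Pr l q → Fin n × Fin n) → Set (Fin n × Fin n) := fun f σ =>
    {a | (cl a.1 = cl a.2 ∧ a.1 ≠ a.2) ∨ ∃ e ∈ E f, σ e = a} with hG
  obtain ⟨σ, hσP, _, good, hgoodp, hgood⟩ := hide_family S hSdisj hScard hR0 hRk M hSM ∅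
    (by simp) E (fun f σ => Fs (G f σ)) (by
      intro f e he σ y
      have : G f (Function.update σ e y) = G f σ := by
        ext a
        simp only [hG, Set.mem_ofPred_eq]
        refine or_congr Iff.rfl (exists_congr fun e' => and_congr_right fun he' => ?_)
        rw [Function.update_of_ne (fun h : e' = e => he (by rw [← h]; exact he'))]
      simp only [this]) (fun f σ _ => hFs1 _)
  have hσ : ∀ e, σ e ∈ S e := Fintype.mem_piFinset.mp hσP
  have hout' : ∀ G' : Set (Fin n × Fin n), (∀ a : Fin n × Fin n, cl a.1 = cl a.2 ∧ a.1 ≠ a.2 →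
      a ∈ G') → (∀ a ∈ G', (cl a.1 = cl a.2 ∧ a.1 ≠ a.2) ∨ ∃ e, σ e = a) →
      G' \ M = {a | cl a.1 = cl a.2 ∧ a.1 ≠ a.2} \ M := by
    intro G' h1 h2
    ext a
    simp only [Set.mem_sdiff, Set.mem_ofPred_eq, mem_coe]
    constructor
    · rintro ⟨ha, haM⟩
      rcases h2 a ha with h | ⟨e, he⟩
      · exact ⟨h, haM⟩
      · exact absurd (he ▸ hSM e (hσ e)) haM
    · rintro ⟨ha, haM⟩
      exact ⟨h1 a ha, haM⟩
  have hGout : ∀ f, G f σ \ M = {a | cl a.1 = cl a.2 ∧ a.1 ≠ a.2} \ M := by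
    intro f
    refine hout' _ (fun a h => Or.inl h) ?_
    rintro a (h | ⟨e, _, he⟩)
    · exact Or.inl h
    · exact Or.inr ⟨e, he⟩
  -- the path inputs are accepted
  have hlayw : ∀ (f : Fm) (i : ℕ), i ≤ l →
      lay (walk (p f) (i + 1)) = lay (walk (p f) i) + 1 := by
    intro f i hi
    simp only [hp]
    rw [lay_walk _ (by omega), lay_walk _ (by omega)]
  have hGsp : ∀ f, CliqueNested (G f σ) := by
    intro f
    refine clique_nested_of (D := pathRelQ (p f)) ?_ ?_ (fun a b h1 h2 => Or.inl ⟨h1, h2⟩) ?_ ?_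
    · rintro u w ⟨i, hi, rfl, rfl⟩
      exact hlayw f i hi
    · intro u u' huu
      exact pathRelQ_nested f.1 u u' huu
    · rintro u w ⟨i, hi, rfl, rfl⟩
      set e : Pr l q := ⟨(walk (p f) i, walk (p f) (i + 1)), hlayw f i hi⟩ with he
      have h1 := hS1 e (σ e) (hσ e)
      refine ⟨(σ e).1, (σ e).2, h1.1, h1.2, Or.inr ⟨e, ?_, rfl⟩⟩
      simp only [hE, mem_filter, mem_univ, true_and]
      exact ⟨i, hi, rfl⟩
    · rintro a b (h | ⟨e, he, hea⟩)
      · exact Or.inl h.1
      · right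
        have h1 := hS1 e (σ e) (hσ e)
        rw [hea] at h1
        simp only [hE, mem_filter, mem_univ, true_and] at he
        obtain ⟨i, hi, hei⟩ := he
        rw [hei] at h1
        exact ⟨i, hi, h1.1, h1.2⟩
  have hreach : ∀ f, Reachable (G f σ) s t := by
    intro f
    refine reach_of_walkQ (p f) cl hs ht _ (fun a b h1 h2 => Or.inl ⟨h1, h2⟩) ?_
    intro i hi
    set e : Pr l q := ⟨(walk (p f) i, walk (p f) (i + 1)), hlayw f i hi⟩ with he
    have h1 := hS1 e (σ e) (hσ e)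
    refine ⟨(σ e).1, (σ e).2, h1.1, h1.2, Or.inr ⟨e, ?_, rfl⟩⟩
    simp only [hE, mem_filter, mem_univ, true_and]
    exact ⟨i, hi, rfl⟩
  -- the cut inputs
  set Gx : (Fin l × ZMod q → Bool) → Set (Fin n × Fin n) := fun x =>
    {a | (cl a.1 = cl a.2 ∧ a.1 ≠ a.2) ∨
      ∃ e : Pr l q, σ e = a ∧ ¬ (hat x e.1.1 = true ∧ hat x e.1.2 = false)}
    with hGx
  have hGxsp : ∀ x, CliqueNested (Gx x) := by
    intro x
    refine clique_nested_of (D := cutRelQ x) (fun u w h => h.1) (cutRelQ_nested x)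
      (fun a b h1 h2 => Or.inl ⟨h1, h2⟩) ?_ ?_
    · rintro u w ⟨h1, h2⟩
      have h3 := hS1 ⟨(u, w), h1⟩ _ (hσ ⟨(u, w), h1⟩)
      exact ⟨_, _, h3.1, h3.2, Or.inr ⟨⟨(u, w), h1⟩, rfl, h2⟩⟩
    · rintro a b (h | ⟨e, hea, he⟩)
      · exact Or.inl h.1
      · right
        have h1 := hS1 e (σ e) (hσ e)
        rw [hea] at h1
        refine ⟨?_, ?_⟩
        · rw [h1.1, h1.2]; exact e.2
        · rw [h1.1, h1.2]; exact he
  have hGxout : ∀ x, Gx x \ M = {a | cl a.1 = cl a.2 ∧ a.1 ≠ a.2} \ M := by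
    intro x
    refine hout' _ (fun a h => Or.inl h) ?_
    rintro a (h | ⟨e, he, _⟩)
    · exact Or.inl h
    · exact Or.inr ⟨e, he⟩
  have hGx0 : ∀ x, ¬ Reachable (Gx x) s t := by
    intro x
    refine not_reach_of_cut cl hs ht _ x ?_
    intro a b hab ha
    rcases hab with h | ⟨e, he, hcr⟩
    · have h' := h.1
      simp only at h'
      rw [← h']; exact ha
    · have h1 := hS1 e (σ e) (hσ e)
      rw [he] at h1
      simp only at h1
      rw [h1.2]
      rw [h1.1] at ha
      by_contra hc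
      exact hcr ⟨ha, by simpa using hc⟩
  set J : W → (Fin l × ZMod q → Bool) → ℝ := fun v x =>
    if Relation.EqvGen (N.Closed (Gx x) (Gx x)ᶜ) N.source v then 1 else 0 with hJ
  have hJstep : ∀ v w x, N.Closed (Gx x) (Gx x)ᶜ v w → J v x = J w x := by
    intro v w x h
    have : Relation.EqvGen (N.Closed (Gx x) (Gx x)ᶜ) N.source v ↔
        Relation.EqvGen (N.Closed (Gx x) (Gx x)ᶜ) N.source w :=
      ⟨fun h' => h'.trans _ _ _ (Relation.EqvGen.rel _ _ h),
        fun h' => h'.trans _ _ _ ((Relation.EqvGen.rel _ _ h).symm _ _)⟩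
    simp only [hJ, this]
  have hJsq : ∀ v x, J v x * J v x ≤ 1 := by
    intro v x
    simp only [hJ]
    split_ifs <;> norm_num
  have hJs : ∀ x, J N.source x = 1 := fun x => if_pos (Relation.EqvGen.refl _)
  have hJt : ∀ x, J N.sink x = 0 := fun x =>
    if_neg (fun h => hGx0 x ((hN (Gx x) (hGxsp x) (hGxout x)).mp h))
  have hst : ∀ f : good, Relation.EqvGen (N.Closed (G f.1 σ) (Fs (G f.1 σ))) N.source N.sink :=
    fun f => (hFs2 _ (hGsp f.1) (hGout f.1) (hreach f.1)).2
  have hdis : ∀ f f' : good, f ≠ f' → ∀ S S' : Finset (Fin l),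
      S.map (p f.1) = S'.map (p f'.1) → S.card + 2 ≤ d := by
    intro f f' hne S S' h
    have := family (m := d - 1) hlq f.1 f'.1 (fun h => hne (Subtype.ext h)) S S' h
    omega
  have hL : ∀ (f : good) (v w : W), N.Closed (G f.1 σ) (Fs (G f.1 σ)) v w →
      ∃ i ≤ l, ∀ x, ¬ Cross i (fun j => x (p f.1 j)) → J v x = J w x := by
    intro f v w hvw
    have hfgood : ∀ e ∉ E f.1, σ e ∉ Fs (G f.1 σ) := hgoodp f.1 f.2
    rcases hvw with h | ⟨a, ha, h⟩ | ⟨a, ha, h⟩
    · exact ⟨0, by omega, fun x _ => hJstep v w x (Or.inl h)⟩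
    · rcases ha with ha | ⟨e, he, hea⟩
      · exact ⟨0, by omega, fun x _ => hJstep v w x (Or.inr (Or.inl ⟨a, Or.inl ha, h⟩))⟩
      · simp only [hE, mem_filter, mem_univ, true_and] at he
        obtain ⟨i, hi, hei⟩ := he
        refine ⟨i, hi, fun x hx => hJstep v w x (Or.inr (Or.inl ⟨a, Or.inr ⟨e, hea, ?_⟩, h⟩))⟩
        rw [hei]
        simp only
        rw [hat_walk, hat_walk]
        exact hx
    · refine ⟨0, by omega, fun x _ => hJstep v w x (Or.inr (Or.inr ⟨a, ?_, h⟩))⟩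
      have hnot : a ∉ G f.1 σ := (hFs2 _ (hGsp f.1) (hGout f.1) (hreach f.1)).1 ha
      intro hax
      rcases hax with h' | ⟨e, he, _⟩
      · exact hnot (Or.inl h')
      · by_cases heE : e ∈ E f.1
        · exact hnot (Or.inr ⟨e, heE, he⟩)
        · exact hfgood e heE (by rw [he]; exact ha)
  have hcore := core (W := W) hd hl (fun f : {x // x ∈ good} => p f.1) hdis J hJsq
    (fun f => N.Closed (G f.1 σ) (Fs (G f.1 σ))) hL hJs hJt hst
  have hcardF : Fintype.card Fm = q ^ (d - 1) := by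
    rw [← Nat.card_eq_fintype_card]; exact card_family
  rw [hcardF] at hgood
  have h1 : ((q ^ (d - 1) : ℕ) : ℝ) ≤ ((2 * good.card : ℕ) : ℝ) := Nat.cast_le.mpr hgood
  push_cast at h1
  rw [Fintype.card_coe] at hcore
  linarith

universe u

open Classical in
theorem paramQ2 {n : ℕ} {d l q : ℕ} [Fact q.Prime] (hd : 2 ≤ d) (hl : 2 ^ d ≤ l) (hlq : l ≤ q)
    {s t : Fin n} (hst : s ≠ t) (M : Finset (Fin n × Fin n)) (hloop : ∀ e ∈ M, e.1 ≠ e.2)
    {Δ k : ℕ} (hout : ∀ v, (M.filter (fun e => e.1 = v)).card ≤ Δ)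
    (hin : ∀ v, (M.filter (fun e => e.2 = v)).card ≤ Δ)
    (hA : 8 * Δ * (2 * (l * q + 2)) ^ 3 + 4 * (2 * (l * q + 2)) ^ 4 + 4 * Δ < M.card)
    (hB : 2 * (2 * (l * q + 2)) ^ 2 * (4 * k + 8 * (l * q + 2) ^ 3 * Δ + 1) + 4 * Δ ≤ M.card) :
    ∃ B : Set (Fin n × Fin n), Disjoint B (M : Set (Fin n × Fin n)) ∧
      ∀ (W : Type u) [Fintype W] (N : SwitchingNetwork (Fin n × Fin n) W),
      (∀ G : Set (Fin n × Fin n), CliqueNested G → G \ M = B →
        (N.Connects G Gᶜ ↔ Reachable G s t)) →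
      (∀ G : Set (Fin n × Fin n), CliqueNested G → G \ M = B → Reachable G s t →
        ∃ F ⊆ Gᶜ, (F ∩ (M : Set (Fin n × Fin n))).ncard ≤ k ∧ N.Connects G F) →
      (q : ℝ) ^ (d - 1) ≤ 2 * ((Fintype.card W : ℝ) ^ 2 * (9 * l + 1) ^ d) := by
  have : NeZero q := ⟨(Fact.out : q.Prime).ne_zero⟩
  have hcC : Fintype.card (Cl l q × Bool) = 2 * (l * q + 2) := by
    rw [Fintype.card_prod, card_Cl, Fintype.card_bool, mul_comm]
  set M' := M.filter (fun e => e.1 ≠ s ∧ e.1 ≠ t ∧ e.2 ≠ s ∧ e.2 ≠ t) with hM'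
  have hcard : M.card ≤ M'.card + 4 * Δ := by
    have h1 : M ⊆ M' ∪ (M.filter (fun e => e.1 = s) ∪ (M.filter (fun e => e.1 = t) ∪
          (M.filter (fun e => e.2 = s) ∪ M.filter (fun e => e.2 = t)))) := by
      intro e he
      simp only [hM', mem_union, mem_filter]
      by_cases h2 : e.1 = s
      · right; left; exact ⟨he, h2⟩
      by_cases h3 : e.1 = t
      · right; right; left; exact ⟨he, h3⟩
      by_cases h4 : e.2 = s
      · right; right; right; left; exact ⟨he, h4⟩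
      by_cases h5 : e.2 = t
      · right; right; right; right; exact ⟨he, h5⟩
      left; exact ⟨he, h2, h3, h4, h5⟩
    have h2 := card_le_card h1
    have u1 := card_union_le M' (M.filter (fun e => e.1 = s) ∪ (M.filter (fun e => e.1 = t) ∪
          (M.filter (fun e => e.2 = s) ∪ M.filter (fun e => e.2 = t))))
    have u2 := card_union_le (M.filter (fun e => e.1 = s)) (M.filter (fun e => e.1 = t) ∪
          (M.filter (fun e => e.2 = s) ∪ M.filter (fun e => e.2 = t)))
    have u3 := card_union_le (M.filter (fun e => e.1 = t))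
          (M.filter (fun e => e.2 = s) ∪ M.filter (fun e => e.2 = t))
    have u4 := card_union_le (M.filter (fun e => e.2 = s)) (M.filter (fun e => e.2 = t))
    have c1 := hout s
    have c2 := hout t
    have c3 := hin s
    have c4 := hin t
    omega
  have hM'sub : M' ⊆ M := filter_subset _ _
  obtain ⟨φ₀, hφ₀⟩ := exists_partition (C := Cl l q × Bool) M'
    (fun e he => hloop e (hM'sub he)) Δ
    (fun v => le_trans (card_le_card (filter_subset_filter _ hM'sub)) (hout v))
    (fun v => le_trans (card_le_card (filter_subset_filter _ hM'sub)) (hin v))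
    (4 * k + 8 * (l * q + 2) ^ 3 * Δ + 1)
    (by rw [hcC]; omega) (by rw [hcC]; omega)
  set φ : Fin n → Cl l q × Bool :=
    Function.update (Function.update φ₀ s (Sum.inr true, false)) t (Sum.inr false, true)
    with hφ
  have hφs : φ s = (Sum.inr true, false) := by
    rw [hφ, Function.update_of_ne hst, Function.update_self]
  have hφt : φ t = (Sum.inr false, true) := by
    rw [hφ, Function.update_self]
  have hφo : ∀ v, v ≠ s → v ≠ t → φ v = φ₀ v := by
    intro v h1 h2
    rw [hφ, Function.update_of_ne h2, Function.update_of_ne h1]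
  refine ⟨{a | (φ a.1).1 = (φ a.2).1 ∧ a.1 ≠ a.2} \ M, Set.disjoint_sdiff_left,
    fun W _ N hN hneg => ?_⟩
  refine paramQ hd hl hlq (fun v => (φ v).1) (s := s) (t := t)
    (by simp only [hφs]) (by simp only [hφt]) M
    (R := 4 * k + 8 * (l * q + 2) ^ 3 * Δ + 1) (k := k) (by omega) (by omega) ?_ N hN hneg
  intro u w
  refine le_trans (hφ₀ (u, true) (w, false) (by simp)) (card_le_card ?_)
  intro e he
  simp only [hM', mem_filter] at he ⊢
  obtain ⟨⟨h1, h2, h3, h4, h5⟩, h6, h7⟩ := he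
  rw [hφo _ h2 h3, hφo _ h4 h5, h6, h7]
  exact ⟨h1, rfl, rfl⟩

theorem clique_empty {V : Type*} : CliqueNested (∅ : Set (V × V)) := by
  have h : ∀ u v : V, Twin (∅ : Set (V × V)) u v → u = v := by
    rintro u v (h | ⟨h, _⟩)
    · exact h
    · exact absurd h (Set.notMem_empty _)
  refine ⟨fun u v w h1 h2 => Or.inl ((h u v h1).trans (h v w h2)), ?_⟩
  rintro u v w ⟨_, a, b, _, _, hab⟩ _
  exact absurd hab (Set.notMem_empty _)

/-- the lower bound; the arcs outside `M` are fixed -/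
theorem explicit_fixedQ (d n Δ k : ℕ) (hΔ : 0 < Δ) (s t : Fin n) (hst : s ≠ t)
    (M : Finset (Fin n × Fin n)) (hloop : ∀ e ∈ M, e.1 ≠ e.2)
    (hout : ∀ v, (M.filter (fun e => e.1 = v)).card ≤ Δ)
    (hin : ∀ v, (M.filter (fun e => e.2 = v)).card ≤ Δ)
    (hM : 2 ^ (20 * d + 100) * Δ ≤ M.card) (hk : 2 ^ (8 * d + 42) * k ≤ M.card) :
    ∃ B : Set (Fin n × Fin n), Disjoint B (M : Set (Fin n × Fin n)) ∧
      ∀ (W : Type u) [Fintype W] (N : SwitchingNetwork (Fin n × Fin n) W),
      (∀ G : Set (Fin n × Fin n), CliqueNested G → G \ M = B →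
        (N.Connects G Gᶜ ↔ Reachable G s t)) →
      (∀ G : Set (Fin n × Fin n), CliqueNested G → G \ M = B → Reachable G s t →
        ∃ F ⊆ Gᶜ, (F ∩ (M : Set (Fin n × Fin n))).ncard ≤ k ∧ N.Connects G F) →
      2 ^ (d * d) ≤ Fintype.card W := by
  rcases Nat.lt_or_ge d 2 with hd | hd
  · -- small cases
    refine ⟨∅, Set.empty_disjoint _, fun W _ N hN _ => ?_⟩
    have hne : N.source ≠ N.sink := by
      intro h
      apply not_reach_empty hst
      refine (hN ∅ clique_empty (Set.empty_sdiff _)).mp ?_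
      unfold SwitchingNetwork.Connects
      rw [h]
      exact Relation.EqvGen.refl _
    have h2 : 1 < Fintype.card W := Fintype.one_lt_card_iff.mpr ⟨_, _, hne⟩
    have h3 : d * d ≤ 1 := by
      have : d ≤ 1 := by omega
      nlinarith
    calc 2 ^ (d * d) ≤ 2 ^ 1 := Nat.pow_le_pow_right (by norm_num) h3
      _ ≤ Fintype.card W := h2
  · obtain ⟨q, hqp, hq1, hq2⟩ :=
      Nat.exists_prime_lt_and_le_two_mul (2 ^ (3 * d + 15)) (by positivity)
    have : Fact q.Prime := ⟨hqp⟩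
    have hlq : 2 ^ d ≤ q := by
      refine le_trans ?_ hq1.le
      exact Nat.pow_le_pow_right (by norm_num) (by omega)
    have hD : 1 ≤ 2 ^ d := Nat.one_le_two_pow
    have hM' : 1267650600228229401496703205376 * (2 ^ d) ^ 20 * Δ ≤ M.card := by
      refine le_trans (le_of_eq ?_) hM
      have : 2 ^ (20 * d + 100) = 1267650600228229401496703205376 * (2 ^ d) ^ 20 := by
        rw [pow_add, mul_comm 20 d, pow_mul, mul_comm ((2 ^ d) ^ 20)]
        norm_num
      rw [this]
    have hk' : 4398046511104 * (2 ^ d) ^ 8 * k ≤ M.card := by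
      refine le_trans (le_of_eq ?_) hk
      have : 2 ^ (8 * d + 42) = 4398046511104 * (2 ^ d) ^ 8 := by
        rw [pow_add, mul_comm 8 d, pow_mul, mul_comm ((2 ^ d) ^ 8)]
        norm_num
      rw [this]
    obtain ⟨hA, hB⟩ := conditions (m := 2 ^ d * q + 2) hD (clusters_le hq2) hM' hk' hΔ
    obtain ⟨B, hBM, hmain⟩ := paramQ2 (n := n) (d := d) (l := 2 ^ d) (q := q) hd le_rfl hlq
      hst M hloop (Δ := Δ) (k := k) (by convert hout) (by convert hin) hA hB
    refine ⟨B, hBM, fun W _ N hN hneg => ?_⟩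
    have := states_of_param2 (w := Fintype.card W) (Nat.cast_nonneg _) hd hq1 (hmain W N hN hneg)
    exact_mod_cast this

end Pool.Agent.Lib.Pe46137N
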