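import Pool.Agent.Lib.Pe46137N.Defs
import Pool.Agent.Lib.Pe46137.Cost

/-!
A network has at least as many states as the digraphs have vertices.

PROOF SKETCH. Copy the proof of `card_le_states` in the file Cost; the inputs used there are a
directed path through all vertices from `s` to `t` and the same path with one arc deleted. They are
layered nested: the level of a vertex is its position on the path, all levels have one vertex.
-/

namespace Pool.Agent.Lib.Pe46137N

open Pool.Agent.Lib.Pe46137 Finset

open Classical in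
theorem card_le_states_nested {n : ℕ} {W : Type} [Fintype W] {s t : Fin n} (hst : s ≠ t)
    (N : SwitchingNetwork (Fin n × Fin n) W)
    (hN : ∀ G : Set (Fin n × Fin n), LayeredNested G → (N.Connects G Gᶜ ↔ Reachable G s t)) :
    n ≤ Fintype.card W := by
  have hn : 2 ≤ n := by
    by_contra hc
    exact hst (Fin.ext (by have := s.2; have := t.2; omega))
  obtain ⟨ρ, hρ0, hρ1⟩ := exists_perm (a := (⟨0, by omega⟩ : Fin n)) (b := ⟨n - 1, by omega⟩)
    (s := s) (t := t) (by intro h; have := congrArg Fin.val h; simp at this; omega) hst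
  have hs : ((ρ.symm s : Fin n) : ℕ) = 0 := by rw [← hρ0, Equiv.symm_apply_apply]
  have ht : ((ρ.symm t : Fin n) : ℕ) = n - 1 := by rw [← hρ1, Equiv.symm_apply_apply]
  set G : Set (Fin n × Fin n) := {e | ((ρ.symm e.2 : Fin n) : ℕ) = (ρ.symm e.1 : Fin n) + 1}
    with hG
  have hGs : ∀ H ⊆ G, LayeredNested H := by
    intro H hH
    refine ⟨fun v => ((ρ.symm v : Fin n) : ℕ), fun u v huv => hH huv, fun v w hvw => ?_⟩
    have e : v = w := ρ.symm.injective (Fin.ext hvw)
    subst e
    exact Or.inl (Set.Subset.refl _)
  have hGr : Reachable G s t := by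
    have key : ∀ k (hk : k < n), Reachable G s (ρ ⟨k, hk⟩) := by
      intro k
      induction k with
      | zero => intro hk; rw [hρ0]; exact Relation.ReflTransGen.refl
      | succ k ih =>
        intro hk
        refine (ih (by omega)).tail ?_
        simp [hG]
    rw [← hρ1]
    exact key _ _
  set Gj : ℕ → Set (Fin n × Fin n) := fun j => {e | e ∈ G ∧ ((ρ.symm e.1 : Fin n) : ℕ) ≠ j}
    with hGj
  have hGjr : ∀ j < n - 1, ¬ Reachable (Gj j) s t := by
    intro j hj h
    have key : ∀ v, Reachable (Gj j) s v → ((ρ.symm v : Fin n) : ℕ) ≤ j := by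
      intro v hv
      induction hv with
      | refl => rw [hs]; omega
      | tail _ h ih =>
        have h1 : _ = _ + 1 := h.1
        have h2 := h.2
        simp only at h1 h2
        omega
    have := key t h
    rw [ht] at this
    omega
  set A : W → Finset ℕ := fun v =>
    (range (n - 1)).filter (fun j => ¬ Relation.EqvGen (N.Closed (Gj j) (Gj j)ᶜ) N.source v) with hA
  have hstep : ∀ v w, N.Closed G Gᶜ v w → (A v).card ≤ (A w).card + 1 ∧
      (A w).card ≤ (A v).card + 1 := by
    intro v w hvw
    have hex : ∃ j₀, ∀ j, j ≠ j₀ → N.Closed (Gj j) (Gj j)ᶜ v w := by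
      rcases hvw with h | ⟨e, he, h⟩ | ⟨e, he, h⟩
      · exact ⟨0, fun j _ => Or.inl h⟩
      · exact ⟨((ρ.symm e.1 : Fin n) : ℕ), fun j hj =>
          Or.inr (Or.inl ⟨e, ⟨he, fun h' => hj h'.symm⟩, h⟩)⟩
      · exact ⟨0, fun j _ => Or.inr (Or.inr ⟨e, fun h' => he h'.1, h⟩)⟩
    obtain ⟨j₀, hj₀⟩ := hex
    have h1 : ∀ j, j ≠ j₀ → (j ∈ A v ↔ j ∈ A w) := by
      intro j hj
      simp only [hA, mem_filter]
      rw [eqv_iff (hj₀ j hj)]
    constructor
    · refine le_trans (card_le_card (t := insert j₀ (A w)) fun j hj => ?_) (card_insert_le _ _)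
      by_cases h : j = j₀
      · rw [h]; exact mem_insert_self _ _
      · exact mem_insert_of_mem ((h1 j h).mp hj)
    · refine le_trans (card_le_card (t := insert j₀ (A v)) fun j hj => ?_) (card_insert_le _ _)
      by_cases h : j = j₀
      · rw [h]; exact mem_insert_self _ _
      · exact mem_insert_of_mem ((h1 j h).mpr hj)
  have hAs : A N.source = ∅ := by
    simp only [hA]
    rw [filter_eq_empty_iff]
    intro j _ h
    exact h (Relation.EqvGen.refl _)
  have hAt : A N.sink = range (n - 1) := by
    simp only [hA]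
    rw [filter_eq_self]
    intro j hj h
    exact hGjr j (mem_range.mp hj) ((hN (Gj j) (hGs _ fun e he => he.1)).mp h)
  have hval : ∀ k < n, ∃ v, (A v).card = k := by
    intro k hk
    refine intermediate (fun v => (A v).card) hstep ((hN G (hGs G (Set.Subset.refl _))).mpr hGr) k ?_ ?_
    · rw [hAs]; simp
    · rw [hAt, card_range]; omega
  have : Nonempty W := ⟨N.source⟩
  choose! f hf using hval
  have hinj : Set.InjOn f (range n : Finset ℕ) := by
    intro a ha b hb hab
    have ha' : a < n := by simpa using ha
    have hb' : b < n := by simpa using hb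
    rw [← hf a ha', ← hf b hb', hab]
  have := card_le_card_of_injOn (s := range n) (t := (univ : Finset W)) f
    (fun _ _ => mem_univ _) hinj
  rwa [card_range, card_univ] at this

end Pool.Agent.Lib.Pe46137N
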