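import Pool.Agent.Lib.Pe46137N.Greedy

/-!
Reachability on clique-nested digraphs is computed by networks of polynomial size.

PROOF SKETCH. The literals `Twin G u v`, its negation, `(u, v) ∈ quot G` and its negation are
computed with at most `4`, `4`, `16 * n ^ 2`, `16 * n ^ 2` states (`comp_lit`, `comp_nlit` with
`M = ∅`, `Comp.and`, `Comp.or`, `comp_exists`, `comp_forall` over `univ : Finset (V × V)`). For a
clique-nested `G`: `Reachable G s t ↔ Twin G s t ∨ Greedy (quot G) s t`. (←): an arc of `quot G`
gives reachability in `G`. (→): by induction on the path from `s`, every reachable `v` satisfies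
`Twin G s v` or there is a `quot G` walk from `s` to `v`: `quot G` is invariant under twins on both
sides (transitivity and symmetry of `Twin`); an arc `(v, w) ∈ G` between twins does not change the
class; otherwise `(v, w) ∈ quot G`. Then `greedy_sound`, `greedy_complete`. Size:
`4 + 223 * n ^ 8 * (16 * n ^ 2) ≤ 4000 * n ^ 10`.
-/

namespace Pool.Agent.Lib.Pe46137N

open Pool.Agent.Lib.Pe46137 Finset

variable {V : Type} [Fintype V] [LinearOrder V]

omit [Fintype V] [LinearOrder V] in
theorem Twin.symm {G : Set (V × V)} {u v : V} (h : Twin G u v) : Twin G v u := by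
  rcases h with rfl | ⟨h1, h2⟩
  · exact Or.inl rfl
  · exact Or.inr ⟨h2, h1⟩

omit [Fintype V] [LinearOrder V] in
theorem Twin.reach {G : Set (V × V)} {u v : V} (h : Twin G u v) : Reachable G u v := by
  rcases h with rfl | ⟨h1, _⟩
  · exact Relation.ReflTransGen.refl
  · exact Relation.ReflTransGen.single h1

omit [Fintype V] in
theorem comp_twin (M : Set (V × V)) (D : Set (Set (V × V))) (u v : V) :
    Comp M D (fun G => Twin G u v) 4 := by
  by_cases h : u = v
  · exact ((comp_true M D).mono (by norm_num)).congr fun G _ => ⟨fun _ => Or.inl h, fun _ => trivial⟩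
  · refine ((comp_lit M D (u, v)).and (comp_lit M D (v, u))).congr fun G _ => ?_
    constructor
    · intro h1
      exact Or.inr h1
    · rintro (h1 | h1)
      · exact absurd h1 h
      · exact h1

omit [Fintype V] in
theorem comp_not_twin (D : Set (Set (V × V))) (u v : V) :
    Comp ∅ D (fun G => ¬ Twin G u v) 4 := by
  by_cases h : u = v
  · exact ((comp_false ∅ D).mono (by norm_num)).congr fun G _ =>
      ⟨fun h1 => h1.elim, fun h1 => h1 (Or.inl h)⟩
  · refine ((comp_nlit ∅ D (u, v) (Set.notMem_empty _)).or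
      (comp_nlit ∅ D (v, u) (Set.notMem_empty _))).congr fun G _ => ?_
    constructor
    · rintro h1 (h2 | ⟨h2, h3⟩)
      · exact h h2
      · rcases h1 with h1 | h1
        · exact h1 h2
        · exact h1 h3
    · intro h1
      by_contra h2
      push Not at h2
      exact h1 (Or.inr h2)

theorem comp_quot (D : Set (Set (V × V))) (u v : V) :
    Comp ∅ D (fun G => (u, v) ∈ quot G) (16 * Fintype.card V ^ 2) := by
  have hn : 1 ≤ Fintype.card V := Fintype.card_pos_iff.2 ⟨u⟩
  have h1 : ∀ p ∈ (univ : Finset (V × V)), Comp ∅ D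
      (fun G => Twin G u p.1 ∧ Twin G v p.2 ∧ p ∈ G) (4 + (4 + 2)) := fun p _ =>
    (comp_twin ∅ D u p.1).and ((comp_twin ∅ D v p.2).and (comp_lit ∅ D p))
  refine (((comp_not_twin D u v).and (comp_exists univ h1)).mono ?_).congr fun G _ => ?_
  · rw [card_univ, Fintype.card_prod]
    have : 1 ≤ Fintype.card V ^ 2 := Nat.one_le_pow _ _ hn
    nlinarith
  · constructor
    · rintro ⟨h2, p, _, h3, h4, h5⟩
      exact ⟨h2, p.1, p.2, h3, h4, h5⟩
    · rintro ⟨h2, a, b, h3, h4, h5⟩
      exact ⟨h2, (a, b), mem_univ _, h3, h4, h5⟩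

theorem comp_not_quot (D : Set (Set (V × V))) (u v : V) :
    Comp ∅ D (fun G => (u, v) ∉ quot G) (16 * Fintype.card V ^ 2) := by
  have hn : 1 ≤ Fintype.card V := Fintype.card_pos_iff.2 ⟨u⟩
  have h1 : ∀ p ∈ (univ : Finset (V × V)), Comp ∅ D
      (fun G => ¬ Twin G u p.1 ∨ ¬ Twin G v p.2 ∨ p ∉ G) (4 + (4 + 2)) := fun p _ =>
    (comp_not_twin D u p.1).or ((comp_not_twin D v p.2).or
      (comp_nlit ∅ D p (Set.notMem_empty _)))
  refine (((comp_twin ∅ D u v).or (comp_forall univ h1)).mono ?_).congr fun G _ => ?_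
  · rw [card_univ, Fintype.card_prod]
    have : 1 ≤ Fintype.card V ^ 2 := Nat.one_le_pow _ _ hn
    nlinarith
  · constructor
    · rintro (h2 | h2) ⟨h3, a, b, h4, h5, h6⟩
      · exact h3 h2
      · rcases h2 (a, b) (mem_univ _) with h7 | h7 | h7
        · exact h7 h4
        · exact h7 h5
        · exact h7 h6
    · intro h2
      by_cases h3 : Twin G u v
      · exact Or.inl h3
      · right
        intro p _
        by_contra h4
        push Not at h4
        exact h2 ⟨h3, p.1, p.2, h4.1, h4.2.1, h4.2.2⟩

omit [Fintype V] [LinearOrder V] in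
theorem quot_reach {G : Set (V × V)} {a b : V} (h : Reachable (quot G) a b) : Reachable G a b := by
  induction h with
  | refl => exact Relation.ReflTransGen.refl
  | tail _ h ih =>
    obtain ⟨_, a', b', h1, h2, h3⟩ := h
    exact ((ih.trans h1.reach).tail h3).trans h2.symm.reach

omit [Fintype V] [LinearOrder V] in
theorem reach_quot {G : Set (V × V)} (hG : ∀ u v w, Twin G u v → Twin G v w → Twin G u w)
    {a b : V} (h : Reachable G a b) : Twin G a b ∨ Reachable (quot G) a b := by
  induction h with
  | refl => exact Or.inl (Or.inl rfl)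
  | @tail v w _ hvw ih =>
    by_cases ht : Twin G v w
    · rcases ih with h1 | h1
      · exact Or.inl (hG _ _ _ h1 ht)
      · rcases Relation.ReflTransGen.cases_tail h1 with h2 | ⟨u, h2, h3⟩
        · rw [← h2]
          exact Or.inl ht
        · right
          refine Relation.ReflTransGen.tail h2 ?_
          obtain ⟨h4, a', b', h5, h6, h7⟩ := h3
          exact ⟨fun h8 => h4 (hG _ _ _ h8 ht.symm), a', b', h5, hG _ _ _ ht.symm h6, h7⟩
    · right
      rcases ih with h1 | h1
      · exact Relation.ReflTransGen.single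
          ⟨fun h2 => ht (hG _ _ _ h1.symm h2), v, w, h1, Or.inl rfl, hvw⟩
      · exact h1.tail ⟨ht, v, w, Or.inl rfl, Or.inl rfl, hvw⟩

theorem upperQ (s t : V) :
    Comp (∅ : Set (V × V)) {G : Set (V × V) | CliqueNested G} (fun G => Reachable G s t)
      (4000 * Fintype.card V ^ 10) := by
  have hn : 1 ≤ Fintype.card V := Fintype.card_pos_iff.2 ⟨s⟩
  have hm : 1 ≤ 16 * Fintype.card V ^ 2 := by
    have : 1 ≤ Fintype.card V ^ 2 := Nat.one_le_pow _ _ hn
    omega
  have h1 := comp_greedy (M := ∅) (D := {G : Set (V × V) | CliqueNested G}) (H := quot) hm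
    (comp_quot _) (comp_not_quot _) s t
  refine (((comp_twin ∅ _ s t).or h1).mono ?_).congr fun G hG => ?_
  · have h2 : 1 ≤ Fintype.card V ^ 10 := Nat.one_le_pow _ _ hn
    have h3 : 223 * Fintype.card V ^ 8 * (16 * Fintype.card V ^ 2) =
        3568 * Fintype.card V ^ 10 := by ring
    rw [h3]
    omega
  · constructor
    · rintro (h2 | h2)
      · exact h2.reach
      · exact quot_reach (greedy_sound h2)
    · intro h2
      rcases reach_quot hG.1 h2 with h3 | h3
      · exact Or.inl h3
      · exact Or.inr (greedy_complete hG.2 h3)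

end Pool.Agent.Lib.Pe46137N
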