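import Pool.Agent.Lib.Pe46137N.Greedy
import Pool.Agent.Lib.Pe46137.Price

/-!
The upper bound: no negations of the arcs that touch `X`.
-/

namespace Pool.Agent.Lib.Pe46137N

open Pool.Agent.Lib.Pe46137 Finset

variable {V : Type} [Fintype V] [LinearOrder V]

/-- one hop between vertices of `X`, the path outside `X` is found by the greedy walk -/
def UpperX_hop (A G : Set (V × V)) (u v : V) : Prop :=
  (u, v) ∈ G ∨ ∃ p ∈ (univ : Finset (V × V)), (u, p.1) ∈ G ∧ Greedy (G ∩ A) p.1 p.2 ∧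
    (p.2, v) ∈ G

/-- reachability by at most `2 ^ j` hops -/
def UpperX_lev (X : Finset V) (A : Set (V × V)) : ℕ → Set (V × V) → V → V → Prop
  | 0, G, u, v => u = v ∨ UpperX_hop A G u v
  | j + 1, G, u, v => ∃ w ∈ X, UpperX_lev X A j G u w ∧ UpperX_lev X A j G w v

theorem UpperX_comp_lev {M : Set (V × V)} {𝒢 : Set (Set (V × V))} (X : Finset V) (A : Set (V × V))
    {m : ℕ} (hA : ∀ a b, Comp M 𝒢 (fun G => Greedy (G ∩ A) a b) m) (j : ℕ) :
    ∀ u v, Comp M 𝒢 (fun G => UpperX_lev X A j G u v)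
      (size X.card (Fintype.card V * Fintype.card V * (m + 4) + 4) j) := by
  induction j with
  | zero =>
    intro u v
    by_cases h : u = v
    · refine ((comp_true M 𝒢).mono (m' := _) ?_).congr fun G _ => ?_
      · simp only [size]; omega
      · simp [UpperX_lev, h]
    · have h1 := (comp_lit M 𝒢 (u, v)).or (comp_exists (univ : Finset (V × V))
        (f := fun p G => (u, p.1) ∈ G ∧ Greedy (G ∩ A) p.1 p.2 ∧ (p.2, v) ∈ G)
        (m := 2 + (m + 2)) fun p _ =>
          (comp_lit M 𝒢 (u, p.1)).and ((hA p.1 p.2).and (comp_lit M 𝒢 (p.2, v))))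
      refine (h1.mono ?_).congr fun G _ => ?_
      · rw [card_univ, Fintype.card_prod]
        simp only [size]
        have : 2 + (m + 2) = m + 4 := by ring
        rw [this]; omega
      · simp only [UpperX_lev, h, false_or]
        rfl
  | succ j ih =>
    intro u v
    exact (comp_exists X (f := fun w G => UpperX_lev X A j G u w ∧ UpperX_lev X A j G w v)
      fun w _ => (ih u w).and (ih w v))

theorem UpperX_sound {X : Finset V} {A G : Set (V × V)} :
    ∀ (j : ℕ) {u v : V}, UpperX_lev X A j G u v → Reachable G u v := by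
  intro j
  induction j with
  | zero =>
    rintro u v (h | h | ⟨p, _, h1, h2, h3⟩)
    · rw [h]; exact Relation.ReflTransGen.refl
    · exact Relation.ReflTransGen.single h
    · refine Relation.ReflTransGen.head h1 (Relation.ReflTransGen.tail ?_ h3)
      exact Relation.ReflTransGen.mono (fun a b h => h.1) _ _ (greedy_sound h2)
  | succ j ih =>
    rintro u v ⟨w, _, h1, h2⟩
    exact (ih h1).trans (ih h2)

theorem UpperX_of_lev {X : Finset V} {A A' G : Set (V × V)}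
    (H : ∀ a b, Reachable (G ∩ A') a b → Greedy (G ∩ A) a b) :
    ∀ (j : ℕ) {u v : V}, lev X A' j G u v → UpperX_lev X A j G u v := by
  intro j
  induction j with
  | zero =>
    rintro u v (h | h | ⟨p, hp, h1, h2, h3⟩)
    · exact Or.inl h
    · exact Or.inr (Or.inl h)
    · exact Or.inr (Or.inr ⟨p, hp, h1, H _ _ h2, h3⟩)
  | succ j ih =>
    rintro u v ⟨w, hw, h1, h2⟩
    exact ⟨w, hw, ih h1, ih h2⟩

omit [Fintype V] [LinearOrder V] in
theorem UpperX_nested {X : Finset V} {G : Set (V × V)} (hG : Nested G) :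
    LocallyNested (G ∩ {e | e.1 ∉ X ∧ e.2 ∉ X ∧ e.1 ≠ e.2}) := by
  intro u v w huv huw
  have hv : v ∉ X := huv.2.2.1
  have hw : w ∉ X := huw.2.2.1
  rcases hG u v w ⟨huv.1, huv.2.2.2⟩ ⟨huw.1, huw.2.2.2⟩ with h | h
  · left
    intro z hz
    obtain ⟨h1, h2⟩ := h ⟨hz.1, hz.2.2.2⟩
    exact ⟨h1, hw, hz.2.2.1, h2⟩
  · right
    intro z hz
    obtain ⟨h1, h2⟩ := h ⟨hz.1, hz.2.2.2⟩
    exact ⟨h1, hv, hz.2.2.1, h2⟩

theorem upperX {𝒢 : Set (Set (V × V))} {s t : V}
    (h𝒢 : ∀ G ∈ 𝒢, Reachable G s t → Nested G) (M : Set (V × V)) (X : Finset V)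
    (hs : s ∈ X) (ht : t ∈ X) (hM : ∀ e ∈ M, e.1 ≠ e.2 → e.1 ∈ X ∨ e.2 ∈ X) {j : ℕ}
    (hj : X.card ≤ 2 ^ j) :
    Comp M 𝒢 (fun G => Reachable G s t)
      ((2 * X.card + 1) ^ j * (500 * Fintype.card V ^ 10)) := by
  classical
  set A : Set (V × V) := {e | e.1 ∉ X ∧ e.2 ∉ X ∧ e.1 ≠ e.2} with hA
  have hAM : ∀ e ∈ A, e ∉ M := by
    intro e he he'
    rcases hM e he' he.2.2 with h | h
    · exact he.1 h
    · exact he.2.1 h
  have h1 : ∀ u v, Comp M 𝒢 (fun G => (u, v) ∈ G ∩ A) 2 := by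
    intro u v
    by_cases h : (u, v) ∈ A
    · refine (comp_lit M 𝒢 (u, v)).congr fun G _ => ?_
      exact ⟨fun h' => ⟨h', h⟩, fun h' => h'.1⟩
    · refine (comp_false M 𝒢).congr fun G _ => ?_
      exact ⟨fun h' => h'.elim, fun h' => h h'.2⟩
  have h2 : ∀ u v, Comp M 𝒢 (fun G => (u, v) ∉ G ∩ A) 2 := by
    intro u v
    by_cases h : (u, v) ∈ A
    · refine (comp_nlit M 𝒢 (u, v) (hAM _ h)).congr fun G _ => ?_
      exact ⟨fun h' h'' => h' h''.1, fun h' h'' => h' ⟨h'', h⟩⟩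
    · refine ((comp_true M 𝒢).mono (by norm_num)).congr fun G _ => ?_
      exact ⟨fun _ h' => h h'.2, fun _ => trivial⟩
  have h3 : ∀ a b, Comp M 𝒢 (fun G => Greedy (G ∩ A) a b) (223 * Fintype.card V ^ 8 * 2) :=
    fun a b => comp_greedy (H := fun G => G ∩ A) (by norm_num) h1 h2 a b
  have h4 := UpperX_comp_lev X A h3 j s t
  have hn : 1 ≤ Fintype.card V := Fintype.card_pos_iff.mpr ⟨s⟩
  refine (h4.mono ((size_le (by omega) j).trans ?_)).congr fun G hG => ?_
  · refine Nat.mul_le_mul_left _ ?_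
    have e2 : Fintype.card V ^ 2 ≤ Fintype.card V ^ 10 := Nat.pow_le_pow_right hn (by norm_num)
    have e0 : 1 ≤ Fintype.card V ^ 10 := Nat.one_le_pow _ _ hn
    calc Fintype.card V * Fintype.card V * (223 * Fintype.card V ^ 8 * 2 + 4) + 4
        = 446 * Fintype.card V ^ 10 + 4 * Fintype.card V ^ 2 + 4 := by ring
      _ ≤ 500 * Fintype.card V ^ 10 := by omega
  · refine ⟨UpperX_sound j, fun h => ?_⟩
    have hl := UpperX_nested (X := X) (h𝒢 G hG h)
    refine UpperX_of_lev (A' := {e | e.1 ∉ X ∧ e.2 ∉ X ∧ e.1 ≠ e.2}) ?_ j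
      ((lev_iff hs ht hj).mpr h)
    intro a b hab
    exact greedy_complete hl hab

end Pool.Agent.Lib.Pe46137N
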