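import Pool.Agent.Lib.Pe46137N.LowerX
import Pool.Agent.Lib.Pe46137N.LowerQ
import Pool.Agent.Lib.Pe46137N.UpperX
import Pool.Agent.Lib.Pe46137N.UpperQ
import Pool.Agent.Lib.Pe46137N.States
import Pool.Agent.Lib.Pe46137.Tradeoff

/-!
The logarithmic forms of the bounds for nested and for clique-nested digraphs.
-/

namespace Pool.Agent.Lib.Pe46137N

open Pool.Agent.Lib.Pe46137 Finset

theorem one_le_logb {n : ℕ} (hn : 2 ≤ n) : 1 ≤ Real.logb 2 (n : ℝ) := by
  have := logb_le_of_le (by norm_num) hn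
  simpa using this

theorem logb_nonneg_nat (n : ℕ) : 0 ≤ Real.logb 2 (n : ℝ) := by
  rcases Nat.eq_zero_or_pos n with h | h
  · rw [h]; simp
  · exact Real.logb_nonneg (by norm_num) (by exact_mod_cast h)

theorem logb_lt_log_succ (r : ℕ) : Real.logb 2 (r : ℝ) ≤ Nat.log 2 r + 1 := by
  rcases Nat.eq_zero_or_pos r with h | h
  · rw [h]; simp
  · have := logb_le_of_le h (Nat.lt_pow_succ_log_self (by norm_num : 1 < 2) r).le
    rw [logb_cast_pow] at this
    push_cast at this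
    exact this

theorem log_le_logb (r : ℕ) : (Nat.log 2 r : ℝ) ≤ Real.logb 2 (r : ℝ) := by
  rcases Nat.eq_zero_or_pos r with h | h
  · rw [h]; simp
  · have := logb_le_of_le (by positivity) (Nat.pow_log_le_self 2 h.ne')
    rw [logb_cast_pow] at this
    exact this

theorem log_lowerX {n T r : ℕ} (hn : 2 ≤ n) (hnT : n ≤ T)
    (hlow : ∀ d, 2 ^ (4 * d + 20) ≤ r → 2 ^ (d * d) ≤ T) :
    Real.logb 2 n + (Real.logb 2 r) ^ 2 ≤ 2000 * Real.logb 2 T := by
  have hT : 1 ≤ Real.logb 2 (T : ℝ) := one_le_logb (le_trans hn hnT)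
  have hnT' : Real.logb 2 (n : ℝ) ≤ Real.logb 2 (T : ℝ) := logb_le_of_le (by omega) hnT
  have h0 := logb_nonneg_nat r
  have h1 := logb_lt_log_succ r
  set a := Nat.log 2 r with ha
  rcases Nat.lt_or_ge a 20 with h | h
  · have h2 : (a : ℝ) + 1 ≤ 20 := by
      have : a + 1 ≤ 20 := h
      exact_mod_cast this
    have h3 : Real.logb 2 (r : ℝ) ≤ 20 := le_trans h1 h2
    nlinarith
  · set d := (a - 20) / 4 with hd
    have hr : r ≠ 0 := by
      intro h0
      rw [ha, h0] at h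
      simp at h
    have hda : 4 * d + 20 ≤ a := by omega
    have hda' : a + 1 ≤ 4 * d + 24 := by omega
    have h2 := hlow d (le_trans (Nat.pow_le_pow_right (by norm_num) hda)
      (Nat.pow_log_le_self 2 hr))
    have h3 := logb_le_of_le (by positivity) h2
    rw [logb_cast_pow] at h3
    push_cast at h3
    have h4 : Real.logb 2 (r : ℝ) ≤ 4 * d + 24 := by
      refine le_trans h1 ?_
      exact_mod_cast hda'
    have h5 : (Real.logb 2 (r : ℝ)) ^ 2 ≤ (4 * (d : ℝ) + 24) ^ 2 := by gcongr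
    have h6 : (4 * (d : ℝ) + 24) ^ 2 ≤ 32 * (d * d) + 1152 := by
      nlinarith [sq_nonneg ((4 : ℝ) * d - 24)]
    nlinarith

theorem log_upperX {n T x : ℕ} (hn : 2 ≤ n) (hT : 0 < T)
    (hup : T ≤ (2 * (x + 2) + 1) ^ (Nat.clog 2 (x + 2)) * (500 * n ^ 10)) :
    Real.logb 2 T ≤ 2000 * (Real.logb 2 n + (Real.logb 2 x) ^ 2) := by
  have hLn : 1 ≤ Real.logb 2 (n : ℝ) := one_le_logb hn
  have h0 := logb_nonneg_nat x
  have h1 := log_le_logb x
  set a := Nat.log 2 x with ha
  have hx : x < 2 ^ (a + 1) := Nat.lt_pow_succ_log_self (by norm_num) x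
  have e0 : 1 ≤ 2 ^ a := Nat.one_le_two_pow
  have h2 : Nat.clog 2 (x + 2) ≤ a + 2 := by
    refine Nat.clog_le_of_le_pow ?_
    have : 2 ^ (a + 2) = 4 * 2 ^ a := by rw [pow_add]; ring
    have : 2 ^ (a + 1) = 2 * 2 ^ a := by rw [pow_add]; ring
    omega
  have h3 : 2 * (x + 2) + 1 ≤ 2 ^ (a + 4) := by
    have : 2 ^ (a + 4) = 16 * 2 ^ a := by rw [pow_add]; ring
    have : 2 ^ (a + 1) = 2 * 2 ^ a := by rw [pow_add]; ring
    omega
  have h4 : T ≤ 2 ^ ((a + 4) * (a + 2)) * (2 ^ 9 * n ^ 10) := by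
    refine le_trans hup (Nat.mul_le_mul ?_ ?_)
    · rw [pow_mul]
      exact le_trans (Nat.pow_le_pow_left h3 _) (Nat.pow_le_pow_right (by positivity) h2)
    · exact Nat.mul_le_mul_right _ (by norm_num)
  have h5 := logb_le_of_le hT h4
  have hn0 : (n : ℝ) ≠ 0 := by
    have : 0 < n := by omega
    positivity
  have h7 : Real.logb 2 (((2 ^ 9 * n ^ 10 : ℕ)) : ℝ) = 9 + 10 * Real.logb 2 n := by
    rw [Nat.cast_mul, Real.logb_mul (by positivity) (by positivity), logb_cast_pow, Nat.cast_pow,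
      Real.logb_pow]
    norm_num
  rw [Nat.cast_mul, Real.logb_mul (by positivity) (by positivity), logb_cast_pow, h7] at h5
  push_cast at h5
  have h6 : ((a : ℝ) + 4) * (a + 2) ≤ (Real.logb 2 x + 4) * (Real.logb 2 x + 2) := by gcongr
  nlinarith [sq_nonneg (Real.logb 2 (x : ℝ) - 1)]

variable {n : ℕ} {s t : Fin n}

theorem two_le (hst : s ≠ t) : 2 ≤ n := by
  by_contra hc
  exact hst (Fin.ext (by have := s.2; have := t.2; omega))

/-- nested digraphs -/
theorem boundsX (hst : s ≠ t) {𝒢 : Set (Set (Fin n × Fin n))}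
    (h1 : ∀ G, LayeredNested G → G ∈ 𝒢) (h2 : ∀ G ∈ 𝒢, Reachable G s t → Nested G)
    (M : Set (Fin n × Fin n)) (r k : ℕ) :
    (Coverable M r k → Real.logb 2 (limitedStates 𝒢 s t M k) ≤
      2000 * (Real.logb 2 n + Real.logb 2 r ^ 2)) ∧
    ∀ X : Finset (Fin n), (∀ u ∈ X, ∀ v ∈ X, u ≠ v → (u, v) ∈ M) → r * (k + 1) ≤ X.card →
      Real.logb 2 n + Real.logb 2 r ^ 2 ≤ 2000 * Real.logb 2 (limitedStates 𝒢 s t M k) := by
  have hn := two_le hst
  have hspec : ∀ k, n ≤ limitedStates 𝒢 s t M k := by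
    intro k
    obtain ⟨N, hN, _⟩ := limitedStates_spec 𝒢 s t M k
    have := card_le_states_nested hst N (fun G hG => hN G (h1 G hG))
    rwa [Fintype.card_fin] at this
  constructor
  · rintro ⟨X, hX, hk⟩
    refine log_upperX hn (lt_of_lt_of_le (by omega) (hspec k)) ?_
    set F : Set (Fin n × Fin n) := {e | e ∈ M ∧ e.1 ≠ e.2 ∧ e.1 ∉ X ∧ e.2 ∉ X} with hF
    have h3 : limitedStates 𝒢 s t M k ≤ cost 𝒢 s t (M \ F) := by
      refine limitedStates_le_cost s t (le_trans (Set.ncard_le_ncard ?_ (Set.toFinite _)) hk)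
      intro e he
      by_contra h
      exact he.2 ⟨he.1, h⟩
    set X₁ := insert s (insert t X) with hX₁
    have hc : X₁.card ≤ r + 2 := by
      have e1 := card_insert_le s (insert t X)
      have e2 := card_insert_le t X
      rw [hX₁]
      omega
    have hcomp := upperX (s := s) (t := t) h2 (M \ F) X₁ (by simp [hX₁]) (by simp [hX₁])
      (fun e he hne => by
        by_contra hcon
        rw [not_or] at hcon
        simp only [hX₁, mem_insert, not_or] at hcon
        exact he.2 ⟨he.1, hne, hcon.1.2.2, hcon.2.2.2⟩)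
      (j := Nat.clog 2 (r + 2)) (le_trans hc (Nat.le_pow_clog (by norm_num) _))
    refine le_trans h3 (le_trans (cost_le_of_comp hcomp) ?_)
    rw [Fintype.card_fin]
    refine Nat.mul_le_mul_right _ (Nat.pow_le_pow_left ?_ _)
    omega
  · intro X hM1 hrk
    refine log_lowerX hn (hspec k) ?_
    intro d hd
    obtain ⟨N, hN, hN'⟩ := limitedStates_spec 𝒢 s t M k
    have := lowerX d n k s t hst X M hM1 (le_trans (Nat.mul_le_mul_right _ hd) hrk) _ N
      (fun G hG => hN G (h1 G hG)) (fun G hG hr => by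
        obtain ⟨F, hF, hk, hcon⟩ := hN' G (h1 G hG) hr
        refine ⟨F, hF, ?_, hcon⟩
        rw [← Set.Finite.cast_ncard_eq (Set.toFinite _)]
        exact_mod_cast hk)
    rwa [Fintype.card_fin] at this

theorem limited_lowerQ (hst : s ≠ t) {M : Set (Fin n × Fin n)} {r k : ℕ}
    (hc : ¬ Coverable M r (k * r)) {d : ℕ} (hd : 2 ^ (20 * d + 101) ≤ r) :
    ∃ B : Set (Fin n × Fin n), Disjoint B M ∧ ∀ 𝒢 : Set (Set (Fin n × Fin n)),
      (∀ G, CliqueNested G → G \ M = B → G ∈ 𝒢) → 2 ^ (d * d) ≤ limitedStates 𝒢 s t M k := by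
  obtain ⟨M', h1, h2, h3, h4⟩ := exists_large hc
  have hpos : 0 < max k 1 := by positivity
  have e1 : 2 ^ (20 * d + 100) * max k 1 ≤ M'.card := by
    have : 2 * (2 ^ (20 * d + 100) * max k 1) ≤ max k 1 * r := by
      calc 2 * (2 ^ (20 * d + 100) * max k 1) = max k 1 * 2 ^ (20 * d + 101) := by ring
        _ ≤ max k 1 * r := Nat.mul_le_mul_left _ hd
    omega
  have e2 : 2 ^ (8 * d + 42) * k ≤ M'.card := by
    refine le_trans (Nat.mul_le_mul ?_ (le_max_left k 1)) e1
    exact Nat.pow_le_pow_right (by norm_num) (by omega)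
  obtain ⟨B, hB, hN⟩ := explicit_fixedQ d n (max k 1) k hpos s t hst M' (fun e he => (h1 e he).2)
    h2 h3 e1 e2
  refine ⟨B \ M, disjoint_sdiff_self_left, fun 𝒢 h𝒢 => ?_⟩
  have hin : ∀ G, CliqueNested G → G \ M' = B → G ∈ 𝒢 := by
    intro G hG hGB
    refine h𝒢 G hG ?_
    rw [← hGB]
    ext e
    simp only [Set.mem_sdiff, mem_coe]
    constructor
    · exact fun h => ⟨⟨h.1, fun h' => h.2 (h1 e h').1⟩, h.2⟩
    · exact fun h => ⟨h.1.1, h.2⟩
  obtain ⟨N, hN1, hN2⟩ := limitedStates_spec 𝒢 s t M k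
  have := hN _ N (fun G hG hGB => hN1 G (hin G hG hGB)) (fun G hG hGB hr => by
    obtain ⟨F, hF, hk, hcon⟩ := hN2 G (hin G hG hGB) hr
    refine ⟨F, hF, le_trans (Set.ncard_le_ncard ?_ (Set.toFinite _)) hk, hcon⟩
    intro e he
    exact ⟨he.1, (h1 e he.2).1⟩)
  rwa [Fintype.card_fin] at this

/-- clique-nested digraphs: polynomial size -/
theorem poly_clique (hst : s ≠ t) :
    Real.logb 2 (states {G : Set (Fin n × Fin n) | CliqueNested G} s t) ≤
      20000 * Real.logb 2 n := by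
  have hn := two_le hst
  have hLn : 1 ≤ Real.logb 2 (n : ℝ) := one_le_logb hn
  have h1 : states {G : Set (Fin n × Fin n) | CliqueNested G} s t ≤ 2 ^ 12 * n ^ 10 := by
    rw [states_eq]
    refine le_trans (cost_le_of_comp (upperQ s t)) ?_
    rw [Fintype.card_fin]
    exact Nat.mul_le_mul_right _ (by norm_num)
  have h2 := logb_le_of_le (states_pos _ s t) h1
  have hn0 : (n : ℝ) ≠ 0 := by
    have : 0 < n := by omega
    positivity
  rw [Nat.cast_mul, Real.logb_mul (by positivity) (by positivity), logb_cast_pow, Nat.cast_pow,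
    Real.logb_pow] at h2
  push_cast at h2
  nlinarith

/-- clique-nested digraphs: lower bound -/
theorem lower_clique (hst : s ≠ t) (M : Set (Fin n × Fin n)) (r k : ℕ)
    (hc : ¬ Coverable M r (k * r)) :
    ∃ B : Set (Fin n × Fin n), Disjoint B M ∧
      ∀ 𝒢 : Set (Set (Fin n × Fin n)), (∀ G, CliqueNested G → G \ M = B → G ∈ 𝒢) →
      Real.logb 2 (states 𝒢 s t) + Real.logb 2 r ^ 2 ≤
        20000 * (1 + Real.logb 2 (limitedStates 𝒢 s t M k)) := by
  rcases Nat.lt_or_ge r (2 ^ 101) with hr | hr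
  · refine ⟨∅, Set.empty_disjoint _, fun 𝒢 _ => ?_⟩
    have hpos := states_pos 𝒢 s t
    have h1 := logb_le_of_le hpos (states_le 𝒢 s t M k)
    have h2 : 0 ≤ Real.logb 2 (states 𝒢 s t) :=
      Real.logb_nonneg (by norm_num) (by exact_mod_cast hpos)
    have h3 : 0 ≤ Real.logb 2 (r : ℝ) ∧ Real.logb 2 (r : ℝ) ≤ 101 := by
      rcases Nat.eq_zero_or_pos r with h | h
      · subst h; simp
      · refine ⟨Real.logb_nonneg (by norm_num) (by exact_mod_cast h), ?_⟩
        have := logb_le_of_le h hr.le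
        rw [logb_cast_pow] at this
        exact_mod_cast this
    nlinarith [h3.1, h3.2]
  · set a := Nat.log 2 r with ha
    have hr0 : r ≠ 0 := by
      intro h; subst h; norm_num at hr
    have ha101 : 101 ≤ a := Nat.le_log_of_pow_le (by norm_num) hr
    set d := (a - 101) / 20 with hd
    have hda : 20 * d + 101 ≤ a := by omega
    have hda' : a + 1 ≤ 20 * d + 121 := by omega
    obtain ⟨B, hB, hlow⟩ := limited_lowerQ hst hc (d := d)
      (le_trans (Nat.pow_le_pow_right (by norm_num) hda) (Nat.pow_log_le_self 2 hr0))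
    refine ⟨B, hB, fun 𝒢 h𝒢 => ?_⟩
    have hpos := states_pos 𝒢 s t
    have h1 := logb_le_of_le hpos (states_le 𝒢 s t M k)
    have h2 := logb_le_of_le (by positivity) (hlow 𝒢 h𝒢)
    rw [logb_cast_pow] at h2
    push_cast at h2
    have h3 : Real.logb 2 (r : ℝ) ≤ 20 * d + 121 := by
      refine le_trans (logb_lt_log_succ r) ?_
      exact_mod_cast hda'
    have h5 : 0 ≤ Real.logb 2 (r : ℝ) := logb_nonneg_nat r
    have h6 : (Real.logb 2 (r : ℝ)) ^ 2 ≤ (20 * (d : ℝ) + 121) ^ 2 := by gcongr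
    nlinarith [sq_nonneg ((d : ℝ) - 3)]

end Pool.Agent.Lib.Pe46137N
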