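import Pool.Agent.Lib.Pe46137N.Calc

/-!
Reachability in a digraph of out-degree at most one, by the undirected graph of its time layers.

PROOF SKETCH. Let `n = card V`, `S = V × Fin (n + 1)`. For `k ≤ n` take the contacts
`c (x, i) (y, j) := j = i + 1 ∧ i < k ∧ f x y` (`False` otherwise; `False` is computed with `2`
states by `comp_false`, which are at most `m + 1`) and use `comp_graph`.
Claim: `(a, 0)` and `(b, k)` are joined iff there is a chain `a = x_0, ..., x_k = b` with
`f x_i x_(i+1)`. If: obvious. Only if: the set of all `(x, i)` with `i ≤ k` from which there is a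
chain of length `k - i` to `b` is closed under the contacts in both directions (this uses that `f`
is functional: if `f x y` and `x` has a chain of length `r + 1` to `b`, then its first step is `y`),
it contains `(b, k)`, so it contains `(a, 0)`.
`ReflTransGen f a b` iff such a chain exists for some `k ≤ n` (shortest chain has no repeated vertex;
or: as `f` is functional the chain is `x_i = g^[i] a`, pigeonhole). Then `comp_exists` over
`range (n + 1)`.
Sizes: with `n ≥ 1`: `S` has at most `2 * n ^ 2` elements; one `k` costs at most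
`2 * n ^ 2 + 4 * n ^ 4 * (m + 1) ≤ 10 * n ^ 4 * m`; all `k`: at most
`(n + 1) * (10 * n ^ 4 * m) + 2 ≤ 22 * n ^ 5 * m` (for `m ≥ 1`).
-/

namespace Pool.Agent.Lib.Pe46137N

open Pool.Agent.Lib.Pe46137 Finset

/-- chains of length `r` -/
def orbCh {V : Type} (f : V → V → Prop) : ℕ → V → V → Prop
  | 0, a, b => a = b
  | r + 1, a, b => ∃ x, f a x ∧ orbCh f r x b

theorem orbCh_add {V : Type} {f : V → V → Prop} (i j : ℕ) (a b : V) :
    orbCh f (i + j) a b ↔ ∃ x, orbCh f i a x ∧ orbCh f j x b := by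
  induction i generalizing a with
  | zero => simp [orbCh]
  | succ i ih =>
    rw [Nat.succ_add]
    constructor
    · rintro ⟨y, hy, h⟩
      obtain ⟨x, h1, h2⟩ := (ih y).1 h
      exact ⟨x, ⟨y, hy, h1⟩, h2⟩
    · rintro ⟨x, ⟨y, hy, h1⟩, h2⟩
      exact ⟨y, hy, (ih y).2 ⟨x, h1, h2⟩⟩

theorem orbCh_exists {V : Type} {f : V → V → Prop} {a b : V} (h : Relation.ReflTransGen f a b) :
    ∃ k, orbCh f k a b := by
  induction h using Relation.ReflTransGen.head_induction_on with
  | refl => exact ⟨0, rfl⟩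
  | head h' _ ih =>
    obtain ⟨k, hk⟩ := ih
    exact ⟨k + 1, _, h', hk⟩

theorem orbCh_refl {V : Type} {f : V → V → Prop} {k : ℕ} {a b : V} (h : orbCh f k a b) :
    Relation.ReflTransGen f a b := by
  induction k generalizing a with
  | zero => rw [show a = b from h]
  | succ k ih =>
    obtain ⟨x, h1, h2⟩ := h
    exact Relation.ReflTransGen.head h1 (ih h2)

theorem orbCh_short {V : Type} [Fintype V] {f : V → V → Prop} {a b : V}
    (h : Relation.ReflTransGen f a b) : ∃ k ≤ Fintype.card V, orbCh f k a b := by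
  classical
  have hex := orbCh_exists h
  refine ⟨Nat.find hex, ?_, Nat.find_spec hex⟩
  by_contra hlt
  push Not at hlt
  obtain ⟨k, hk⟩ : ∃ k, k = Nat.find hex := ⟨_, rfl⟩
  rw [← hk] at hlt
  have hkb : orbCh f k a b := by rw [hk]; exact Nat.find_spec hex
  have hx : ∀ i : Fin (Fintype.card V + 1), ∃ x, orbCh f i a x ∧ orbCh f (k - i) x b := by
    intro i
    have h1 : (i : ℕ) + (k - i) = k := by have := i.2; omega
    rw [← h1] at hkb
    have h2 := (orbCh_add _ _ _ _).1 hkb
    exact h2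
  choose x hx using hx
  obtain ⟨i, j, hij, hxij⟩ := Fintype.exists_ne_map_eq_of_card_lt x (by simp)
  have key : ∀ i j : Fin (Fintype.card V + 1), i < j → x i = x j → False := by
    intro i j hij he
    have h1 := (hx i).1
    have h2 := (hx j).2
    rw [← he] at h2
    have h3 : orbCh f (i + (k - j)) a b := (orbCh_add _ _ _ _).2 ⟨_, h1, h2⟩
    refine Nat.find_min hex (m := (i : ℕ) + (k - j)) ?_ h3
    rw [← hk]
    have h4 : (i : ℕ) < j := hij
    have h5 := j.2
    omega
  rcases lt_or_gt_of_ne hij with h1 | h1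
  · exact key i j h1 hxij
  · exact key j i h1 hxij.symm

/-- the layered contacts -/
def orbC {V : Type} {n : ℕ} (f : V → V → Prop) (k : ℕ) (p q : V × Fin (n + 1)) : Prop :=
  ((q.2 : ℕ) = p.2 + 1 ∧ (p.2 : ℕ) < k) ∧ f p.1 q.1

theorem orbC_iff {V : Type} {n : ℕ} {f : V → V → Prop}
    (hfun : ∀ x y z, f x y → f x z → y = z) (k : Fin (n + 1)) (a b : V) :
    Relation.EqvGen (orbC (n := n) f k) (a, 0) (b, k) ↔ orbCh f k a b := by
  constructor
  · intro h
    have := eqv_closed {p : V × Fin (n + 1) | (p.2 : ℕ) ≤ k ∧ orbCh f (k - p.2) p.1 b} ?_ h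
    · simp only [Set.mem_ofPred_eq, Fin.val_zero, Nat.sub_zero, Nat.zero_le, true_and, le_refl,
        Nat.sub_self] at this
      exact this.2 rfl
    · rintro p q ⟨⟨h1, h2⟩, h3⟩
      simp only [Set.mem_ofPred_eq]
      have h4 : (k : ℕ) - p.2 = (k - q.2) + 1 := by omega
      rw [h4]
      constructor
      · rintro ⟨_, x, hx, h5⟩
        rw [hfun _ _ _ hx h3] at h5
        exact ⟨by omega, h5⟩
      · rintro ⟨_, h5⟩
        exact ⟨by omega, q.1, h3, h5⟩
  · intro h
    have key : ∀ r : ℕ, ∀ (x : V) (i : Fin (n + 1)), (i : ℕ) + r = k → orbCh f r x b →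
        Relation.EqvGen (orbC (n := n) f k) (x, i) (b, k) := by
      intro r
      induction r with
      | zero =>
        intro x i hi hx
        have e1 : i = k := Fin.ext (by simpa using hi)
        have e2 : x = b := hx
        rw [e1, e2]
        exact Relation.EqvGen.refl _
      | succ r ih =>
        rintro x i hi ⟨y, hxy, hy⟩
        have hi' : (i : ℕ) + 1 < n + 1 := by have := k.2; omega
        have h1 := ih y ⟨i + 1, hi'⟩ (by simp only; omega) hy
        refine Relation.EqvGen.trans _ _ _ (Relation.EqvGen.rel _ _ ?_) h1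
        exact ⟨⟨rfl, by simp only; omega⟩, hxy⟩
    exact key k a 0 (by simp) h

theorem comp_orbit {E : Type} {M : Set E} {D : Set (Set E)} {V : Type} [Fintype V] [Nonempty V]
    {f : V → V → Set E → Prop} {m : ℕ} (hm : 1 ≤ m) (hf : ∀ a b, Comp M D (f a b) m)
    (hfun : ∀ G ∈ D, ∀ x y z, f x y G → f x z G → y = z) (a b : V) :
    Comp M D (fun G => Relation.ReflTransGen (fun x y => f x y G) a b)
      (22 * Fintype.card V ^ 5 * m) := by
  classical
  obtain ⟨n, hn⟩ : ∃ n, n = Fintype.card V := ⟨_, rfl⟩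
  have hn1 : 1 ≤ n := by rw [hn]; exact Fintype.card_pos
  have hc : ∀ k : Fin (n + 1), Comp M D (fun G => Relation.EqvGen
      (orbC (n := n) (fun x y => f x y G) k) (a, 0) (b, k)) (10 * n ^ 4 * m) := by
    intro k
    have h1 : ∀ p q : V × Fin (n + 1), Comp M D
        (fun G => orbC (n := n) (fun x y => f x y G) k p q) (m + 1) := by
      intro p q
      by_cases h : (q.2 : ℕ) = p.2 + 1 ∧ (p.2 : ℕ) < k
      · refine ((hf p.1 q.1).mono (Nat.le_succ m)).congr fun G _ => ?_
        simp only [orbC]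
        exact ⟨fun h' => ⟨h, h'⟩, fun h' => h'.2⟩
      · refine ((comp_false M D).mono (by omega)).congr fun G _ => ?_
        simp only [orbC, false_iff]
        exact fun h' => h h'.1
    refine (comp_graph (c := fun p q G => orbC (n := n) (fun x y => f x y G) k p q) h1
      (a, 0) (b, k)).mono ?_
    rw [Fintype.card_prod, Fintype.card_fin, ← hn]
    have e1 : n * (n + 1) ≤ 2 * n ^ 2 := by nlinarith
    have e2 : 2 * n ^ 2 ≤ 2 * n ^ 4 * m := by
      have : n ^ 2 ≤ n ^ 4 := Nat.pow_le_pow_right hn1 (by norm_num)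
      calc 2 * n ^ 2 ≤ 2 * n ^ 4 := by omega
        _ ≤ 2 * n ^ 4 * m := Nat.le_mul_of_pos_right _ hm
    have e3 : n * (n + 1) * (n * (n + 1)) ≤ 4 * n ^ 4 := by
      calc n * (n + 1) * (n * (n + 1)) ≤ (2 * n ^ 2) * (2 * n ^ 2) := Nat.mul_le_mul e1 e1
        _ = 4 * n ^ 4 := by ring
    have e4 : n * (n + 1) * (n * (n + 1)) * (m + 1) ≤ 8 * n ^ 4 * m := by
      calc n * (n + 1) * (n * (n + 1)) * (m + 1) ≤ (4 * n ^ 4) * (2 * m) :=
            Nat.mul_le_mul e3 (by omega)
        _ = 8 * n ^ 4 * m := by ring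
    calc n * (n + 1) + n * (n + 1) * (n * (n + 1)) * (m + 1) ≤
          2 * n ^ 4 * m + 8 * n ^ 4 * m := Nat.add_le_add (e1.trans e2) e4
      _ = 10 * n ^ 4 * m := by ring
  have h2 := comp_exists (Finset.univ : Finset (Fin (n + 1))) (fun k _ => hc k)
  refine (h2.mono ?_).congr fun G hG => ?_
  · rw [Finset.card_univ, Fintype.card_fin, ← hn]
    have e1 : 2 ≤ 2 * n ^ 5 * m := by
      have : 1 ≤ n ^ 5 * m := Nat.mul_pos (pow_pos hn1 5) hm
      calc 2 = 2 * 1 := rfl
        _ ≤ 2 * (n ^ 5 * m) := Nat.mul_le_mul_left 2 this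
        _ = 2 * n ^ 5 * m := by ring
    calc (n + 1) * (10 * n ^ 4 * m) + 2 ≤ (2 * n) * (10 * n ^ 4 * m) + 2 * n ^ 5 * m :=
          Nat.add_le_add (Nat.mul_le_mul_right _ (by omega)) e1
      _ = 22 * n ^ 5 * m := by ring
  · constructor
    · rintro ⟨k, _, h⟩
      exact orbCh_refl ((orbC_iff (hfun G hG) k a b).1 h)
    · intro h
      obtain ⟨k, hk, hk'⟩ := orbCh_short h
      rw [← hn] at hk
      exact ⟨⟨k, by omega⟩, mem_univ _, (orbC_iff (hfun G hG) ⟨k, by omega⟩ a b).2 hk'⟩

end Pool.Agent.Lib.Pe46137N
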