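import Pool.Agent.Lib.Pe46137N.Defs
import Pool.Agent.Lib.Pe46137N.Orbit

/-!
The greedy pointer walk decides reachability in locally nested digraphs.

PROOF SKETCHES.
* `next_unique`: two such `w` have the same out-neighbourhood and are each at most the other one.
* `greedy_sound`: each step of `Next` is an arc.
* `greedy_complete`: let `H` be locally nested. If `u` has an out-neighbour, some `w` with
  `Next H u w` exists: among the finitely many out-neighbours of `u`, which are pairwise nested,
  there is one whose out-neighbourhood contains all others; take the least such.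
  Claim: if `b` is reached from `a` by a walk of length `k + 1`, then there is `u` with
  `ReflTransGen (Next H) a u` (indeed a chain of exactly `k` steps) and `(u, b) ∈ H`. Induction on
  `k`; step: walk `a ... v b` with `v` at distance `k + 1`, so `(u, v) ∈ H` for the end `u` of the
  chain; `u` has an out-neighbour, so `Next H u w` for some `w`, and `Out H v ⊆ Out H w`, so
  `(w, b) ∈ H`. (It is enough to prove by induction on `Reachable H a b` that `a = b` or such a `u`
  exists.)
* `comp_greedy`: `H G` is a digraph computed from the input `G`: both its arcs and its non-arcs are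
  computed by networks with `m` states. `Next (H G) u w` is
  `(u, w) ∈ H ∧ ∀ w' ∈ univ, (u, w') ∉ H ∨ ((∀ z ∈ univ, (w', z) ∉ H ∨ (w, z) ∈ H) ∧
     (w ≤ w' ∨ ∃ z ∈ univ, (w, z) ∈ H ∧ (w', z) ∉ H))`, of size at most
  `m + (n * (m + (n * (2 * m) + 1) + (n * (2 * m) + 2)) + 1) ≤ 10 * n ^ 2 * m`.
  Then `comp_orbit` (size `22 * n ^ 5 * (10 * n ^ 2 * m)`), and the existential quantifier over `u`:
  `n * (220 * n ^ 7 * m + m) + 2 ≤ 223 * n ^ 8 * m`.
-/

namespace Pool.Agent.Lib.Pe46137N

open Pool.Agent.Lib.Pe46137 Finset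

variable {V : Type} [LinearOrder V]

/-- `w` is the least out-neighbour of `u` among those with the largest out-neighbourhood -/
def Next (H : Set (V × V)) (u w : V) : Prop :=
  (u, w) ∈ H ∧ ∀ w', (u, w') ∈ H → Out H w' ⊆ Out H w ∧ (w ≤ w' ∨ ¬ Out H w ⊆ Out H w')

/-- `b` is `a`, or an out-neighbour of a vertex on the greedy walk from `a` -/
def Greedy (H : Set (V × V)) (a b : V) : Prop :=
  a = b ∨ ∃ u, Relation.ReflTransGen (Next H) a u ∧ (u, b) ∈ H

theorem next_unique {H : Set (V × V)} {u w w' : V} (h : Next H u w) (h' : Next H u w') :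
    w = w' := by
  obtain ⟨h1, h2⟩ := h.2 w' h'.1
  obtain ⟨h3, h4⟩ := h'.2 w h.1
  refine le_antisymm ?_ ?_
  · exact h2.resolve_right (fun h => h h3)
  · exact h4.resolve_right (fun h => h h1)

theorem greedy_sound {H : Set (V × V)} {a b : V} (h : Greedy H a b) : Reachable H a b := by
  rcases h with rfl | ⟨u, h1, h2⟩
  · exact Relation.ReflTransGen.refl
  · exact (Relation.ReflTransGen.mono (fun x y hxy => hxy.1) _ _ h1).tail h2

private theorem exists_next [Fintype V] {H : Set (V × V)} (hH : LocallyNested H) {u v : V}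
    (h : (u, v) ∈ H) : ∃ w, Next H u w := by
  classical
  have hne : (univ.filter (fun w => (u, w) ∈ H)).Nonempty := ⟨v, by simpa using h⟩
  obtain ⟨w0, hw0, hmax⟩ := exists_max_image _ (fun w => (Out H w).ncard) hne
  have hw0' : (u, w0) ∈ H := by simpa using hw0
  have hall : ∀ w', (u, w') ∈ H → Out H w' ⊆ Out H w0 := by
    intro w' hw'
    rcases hH u w' w0 hw' hw0' with h1 | h1
    · exact h1
    · have h2 := hmax w' (by simpa using hw')
      exact (Set.eq_of_subset_of_ncard_le h1 h2 (Set.toFinite _)).ge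
  have hne2 : (univ.filter (fun w => (u, w) ∈ H ∧ Out H w0 ⊆ Out H w)).Nonempty :=
    ⟨w0, by simpa using hw0'⟩
  obtain ⟨w, hw, hmin⟩ := exists_min_image _ id hne2
  rw [mem_filter] at hw
  refine ⟨w, hw.2.1, fun w' hw' => ⟨(hall w' hw').trans hw.2.2, ?_⟩⟩
  by_cases h1 : Out H w ⊆ Out H w'
  · left
    exact hmin w' (by
      rw [mem_filter]
      exact ⟨mem_univ _, hw', hw.2.2.trans h1⟩)
  · exact Or.inr h1

theorem greedy_complete [Fintype V] {H : Set (V × V)} (hH : LocallyNested H) {a b : V}
    (h : Reachable H a b) : Greedy H a b := by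
  have h' : Relation.ReflTransGen (fun x y => (x, y) ∈ H) a b := h
  induction h' with
  | refl => exact Or.inl rfl
  | @tail v b hav hvb ih =>
    rcases ih hav with rfl | ⟨u, h1, h2⟩
    · exact Or.inr ⟨a, Relation.ReflTransGen.refl, hvb⟩
    · obtain ⟨w, hw⟩ := exists_next hH h2
      exact Or.inr ⟨w, h1.tail hw, (hw.2 v h2).1 hvb⟩

private theorem comp_const_or {E : Type} {M : Set E} {D : Set (Set E)} {f : Set E → Prop}
    {m : ℕ} (p : Prop) (hm : 1 ≤ m) (hf : Comp M D f m) : Comp M D (fun G => p ∨ f G) m := by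
  by_cases hp : p
  · exact ((comp_true M D).mono hm).congr (fun G _ => by simp [hp])
  · exact hf.congr (fun G _ => by simp [hp])

private theorem comp_next [Fintype V] {E : Type} {M : Set E} {D : Set (Set E)}
    {H : Set E → Set (V × V)} {m : ℕ} (hm : 1 ≤ m)
    (h1 : ∀ u v, Comp M D (fun G => (u, v) ∈ H G) m)
    (h2 : ∀ u v, Comp M D (fun G => (u, v) ∉ H G) m) (u w : V) :
    Comp M D (fun G => Next (H G) u w) (10 * Fintype.card V ^ 2 * m) := by
  have c2 : ∀ w', Comp M D (fun G => ∀ z ∈ (univ : Finset V), (w', z) ∉ H G ∨ (w, z) ∈ H G)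
      ((univ : Finset V).card * (m + m) + 1) := fun w' =>
    comp_forall univ (fun z _ => (h2 w' z).or (h1 w z))
  have c4 : ∀ w', Comp M D (fun G => ∃ z ∈ (univ : Finset V), (w, z) ∈ H G ∧ (w', z) ∉ H G)
      ((univ : Finset V).card * (m + m) + 2) := fun w' =>
    comp_exists univ (fun z _ => (h1 w z).and (h2 w' z))
  have c5 := fun w' => comp_const_or (w ≤ w') (by omega) (c4 w')
  have c8 := comp_forall (univ : Finset V) (fun w' _ => (h2 u w').or ((c2 w').and (c5 w')))
  have c9 := (h1 u w).and c8
  refine (c9.mono ?_).congr ?_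
  · rw [card_univ]
    have hN : 1 ≤ Fintype.card V := Fintype.card_pos_iff.2 ⟨u⟩
    generalize Fintype.card V = N at hN
    have e1 : 1 ≤ N * m := Nat.mul_pos hN hm
    have e2 : N * m ≤ N ^ 2 * m := by nlinarith
    have e3 : m ≤ N * m := Nat.le_mul_of_pos_left m hN
    have e4 : N ≤ N * m := Nat.le_mul_of_pos_right N hm
    calc m + (N * (m + (N * (m + m) + 1 + (N * (m + m) + 2))) + 1)
        = m + N * m + 4 * (N ^ 2 * m) + 3 * N + 1 := by ring
      _ ≤ 10 * (N ^ 2 * m) := by omega
      _ = 10 * N ^ 2 * m := by ring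
  · intro G _
    simp only [Next, mem_univ, true_and, forall_const]
    refine and_congr Iff.rfl (forall_congr' fun w' => ?_)
    rw [imp_iff_not_or]
    refine or_congr Iff.rfl (and_congr ?_ (or_congr Iff.rfl ?_))
    · refine ⟨fun h z hz => (h z).resolve_left (fun h' => h' hz), fun h z => ?_⟩
      by_cases hz : (w', z) ∈ H G
      · exact Or.inr (h hz)
      · exact Or.inl hz
    · rw [Set.not_subset]
      rfl

theorem comp_greedy [Fintype V] {E : Type} {M : Set E} {D : Set (Set E)}
    {H : Set E → Set (V × V)} {m : ℕ} (hm : 1 ≤ m)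
    (h1 : ∀ u v, Comp M D (fun G => (u, v) ∈ H G) m)
    (h2 : ∀ u v, Comp M D (fun G => (u, v) ∉ H G) m) (a b : V) :
    Comp M D (fun G => Greedy (H G) a b) (223 * Fintype.card V ^ 8 * m) := by
  have : Nonempty V := ⟨a⟩
  have hN : 1 ≤ Fintype.card V := Fintype.card_pos
  have hm' : 1 ≤ 10 * Fintype.card V ^ 2 * m := Nat.succ_le_of_lt (by positivity)
  have c1 := comp_orbit (f := fun u w G => Next (H G) u w) hm' (comp_next hm h1 h2)
    (fun G _ x y z hy hz => next_unique hy hz) a
  have c2 := comp_exists (univ : Finset V) (fun u _ => (c1 u).and (h1 u b))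
  have c3 := comp_const_or (a = b) (by omega) c2
  refine (c3.mono ?_).congr ?_
  · rw [card_univ]
    generalize Fintype.card V = N at hN
    have e1 : 1 ≤ N ^ 8 * m := Nat.succ_le_of_lt (by positivity)
    have e2 : N * m ≤ N ^ 8 * m := by
      refine Nat.mul_le_mul_right m ?_
      calc N = N ^ 1 := (pow_one N).symm
        _ ≤ N ^ 8 := Nat.pow_le_pow_right hN (by norm_num)
    calc N * (22 * N ^ 5 * (10 * N ^ 2 * m) + m) + 2
        = 220 * (N ^ 8 * m) + N * m + 2 := by ring
      _ ≤ 223 * (N ^ 8 * m) := by omega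
      _ = 223 * N ^ 8 * m := by ring
  · intro G _
    simp only [Greedy, mem_univ, true_and]

end Pool.Agent.Lib.Pe46137N
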