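import Pool.Agent.Lib.Pe46137N.Defs
import Pool.Agent.Lib.Pe46137.Explicit

/-!
The lower bound on layered nested digraphs: few negations of the arcs inside `X`.
-/

namespace Pool.Agent.Lib.Pe46137N

open Pool.Agent.Lib.Pe46137 Finset

/-- disjoint blocks of prescribed size -/
theorem exists_blocks {A C : Type*} [DecidableEq A] [Fintype C] (X : Finset A) (R : ℕ)
    (h : Fintype.card C * R ≤ X.card) :
    ∃ S : C → Finset A, (∀ c, S c ⊆ X) ∧ (∀ c, R ≤ (S c).card) ∧
      ∀ c c', c ≠ c' → Disjoint (S c) (S c') := by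
  have h1 : Fintype.card (C × Fin R) ≤ Fintype.card X := by
    rw [Fintype.card_prod, Fintype.card_fin, Fintype.card_coe]
    exact h
  obtain ⟨g⟩ := Function.Embedding.nonempty_of_card_le h1
  refine ⟨fun c => (univ : Finset (Fin R)).map ⟨fun i => (g (c, i) : A), ?_⟩, ?_, ?_, ?_⟩
  · intro i j hij
    have := g.injective (Subtype.ext hij)
    exact (Prod.ext_iff.mp this).2
  · intro c a ha
    simp only [mem_map, mem_univ, true_and, Function.Embedding.coeFn_mk] at ha
    obtain ⟨i, rfl⟩ := ha
    exact (g (c, i)).2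
  · intro c
    simp
  · intro c c' hcc
    rw [Finset.disjoint_left]
    intro a ha ha'
    simp only [mem_map, mem_univ, true_and, Function.Embedding.coeFn_mk] at ha ha'
    obtain ⟨i, hi⟩ := ha
    obtain ⟨j, hj⟩ := ha'
    have := g.injective (Subtype.ext (hi.trans hj.symm))
    exact hcc (Prod.ext_iff.mp this).1

section Instances

variable {n l q : ℕ}

/-- the digraph of a relation between clusters -/
def inst (s t : Fin n) (σ : Cl l q → Fin n) (D : Cl l q → Cl l q → Prop) :
    Set (Fin n × Fin n) :=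
  {a | a = (s, σ (Sum.inr true)) ∨ a = (σ (Sum.inr false), t) ∨
    ∃ u w, D u w ∧ a = (σ u, σ w)}

theorem lay_last {u : Cl l q} (h : lay u = l + 1) : u = Sum.inr false := by
  rcases u with ⟨i, z⟩ | b
  · exfalso
    simp only [lay] at h
    have := i.2
    omega
  · cases b with
    | true => simp only [lay] at h; omega
    | false => rfl

theorem inst_nested {s t : Fin n} (hst : s ≠ t) {σ : Cl l q → Fin n}
    (hσ : Function.Injective σ) (hσs : ∀ c, σ c ≠ s) (hσt : ∀ c, σ c ≠ t)
    {D : Cl l q → Cl l q → Prop} (hD : ∀ u w, D u w → lay w = lay u + 1)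
    (hD' : ∀ u u', lay u = lay u' → (∀ w, D u w → D u' w) ∨ ∀ w, D u' w → D u w) :
    LayeredNested (inst s t σ D) := by
  classical
  set h : Fin n → ℕ := fun v =>
    if hv : ∃ c, σ c = v then lay hv.choose + 1 else if v = t then l + 3 else 0 with hh
  have h1 : ∀ c, h (σ c) = lay c + 1 := by
    intro c
    have hv : ∃ c', σ c' = σ c := ⟨c, rfl⟩
    have : h (σ c) = lay hv.choose + 1 := dif_pos hv
    rw [this, hσ hv.choose_spec]
  have h2 : h s = 0 := by
    have hv : ¬ ∃ c, σ c = s := fun ⟨c, hc⟩ => hσs c hc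
    simp only [hh, dif_neg hv, if_neg hst]
  have h3 : h t = l + 3 := by
    have hv : ¬ ∃ c, σ c = t := fun ⟨c, hc⟩ => hσt c hc
    simp only [hh, dif_neg hv, if_true]
  have hout : ∀ v, v ≠ s → (¬ ∃ c, σ c = v) → Out (inst s t σ D) v = ∅ := by
    intro v hvs hv
    ext w
    simp only [Out, inst, Set.mem_ofPred_eq, Prod.mk.injEq, Set.mem_empty_iff_false, iff_false]
    rintro (⟨h, _⟩ | ⟨h, _⟩ | ⟨u, w', _, h, _⟩)
    · exact hvs h
    · exact hv ⟨_, h.symm⟩
    · exact hv ⟨_, h.symm⟩
  refine ⟨h, ?_, ?_⟩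
  · rintro u v (huv | huv | ⟨a, b, hab, huv⟩)
    · obtain ⟨rfl, rfl⟩ := Prod.mk.injEq _ _ _ _ ▸ huv
      rw [h1, h2]; simp [lay]
    · obtain ⟨rfl, rfl⟩ := Prod.mk.injEq _ _ _ _ ▸ huv
      rw [h1, h3]; simp [lay]
    · obtain ⟨rfl, rfl⟩ := Prod.mk.injEq _ _ _ _ ▸ huv
      rw [h1, h1, hD a b hab]
  · intro v w hvw
    by_cases hv : ∃ c, σ c = v
    · by_cases hw : ∃ c, σ c = w
      · obtain ⟨c, rfl⟩ := hv
        obtain ⟨c', rfl⟩ := hw
        rw [h1, h1] at hvw
        by_cases hcc : c = c'
        · rw [hcc]; exact Or.inl subset_rfl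
        have hc : c ≠ Sum.inr false := by
          intro hc
          have h4 : lay c = l + 1 := by rw [hc]; rfl
          exact hcc (hc.trans (lay_last (by omega)).symm)
        have hc' : c' ≠ Sum.inr false := by
          intro hc'
          have h4 : lay c' = l + 1 := by rw [hc']; rfl
          exact hcc ((lay_last (by omega)).trans hc'.symm)
        have key : ∀ e, e ≠ Sum.inr false → Out (inst s t σ D) (σ e) = {z | ∃ w, D e w ∧ z = σ w} := by
          intro e he
          ext z
          simp only [Out, inst, Set.mem_ofPred_eq, Prod.mk.injEq]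
          constructor
          · rintro (⟨h, _⟩ | ⟨h, _⟩ | ⟨u, w', hD1, h, h'⟩)
            · exact absurd h (hσs _)
            · exact absurd (hσ h) he
            · rw [hσ h]; exact ⟨w', hD1, h'⟩
          · rintro ⟨w', hD1, h'⟩
            exact Or.inr (Or.inr ⟨e, w', hD1, rfl, h'⟩)
        rw [key c hc, key c' hc']
        rcases hD' c c' (by omega) with h | h
        · left
          rintro z ⟨w', h1, h2⟩
          exact ⟨w', h w' h1, h2⟩
        · right
          rintro z ⟨w', h1, h2⟩
          exact ⟨w', h w' h1, h2⟩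
      · by_cases hws : w = s
        · exfalso
          obtain ⟨c, rfl⟩ := hv
          rw [hws, h2, h1] at hvw
          omega
        · right
          rw [hout w hws hw]; exact Set.empty_subset _
    · by_cases hvs : v = s
      · by_cases hw : ∃ c, σ c = w
        · exfalso
          obtain ⟨c, rfl⟩ := hw
          rw [hvs, h2, h1] at hvw
          omega
        · by_cases hws : w = s
          · rw [hvs, hws]; exact Or.inl subset_rfl
          · right
            rw [hout w hws hw]; exact Set.empty_subset _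
      · left
        rw [hout v hvs hv]; exact Set.empty_subset _

/-- the relation of a path -/
def pathRel (p : Fin l ↪ Fin l × ZMod q) (u w : Cl l q) : Prop :=
  ∃ i ≤ l, u = walk p i ∧ w = walk p (i + 1)

/-- the relation of a cut -/
def cutRel (x : Fin l × ZMod q → Bool) (u w : Cl l q) : Prop :=
  lay w = lay u + 1 ∧ ¬ (hat x u = true ∧ hat x w = false)

theorem cutRel_nested (x : Fin l × ZMod q → Bool) (u u' : Cl l q) (h : lay u = lay u') :
    (∀ w, cutRel x u w → cutRel x u' w) ∨ ∀ w, cutRel x u' w → cutRel x u w := by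
  unfold cutRel
  rw [h]
  cases hu : hat x u with
  | false => right; intro w hw; exact ⟨hw.1, by simp⟩
  | true =>
    cases hu' : hat x u' with
    | false => left; intro w hw; exact ⟨hw.1, by simp⟩
    | true => left; intro w hw; exact hw

theorem pathRel_nested (P : Polynomial (ZMod q)) (u u' : Cl l q) (h : lay u = lay u') :
    (∀ w, pathRel (pathOf l q P) u w → pathRel (pathOf l q P) u' w) ∨
      ∀ w, pathRel (pathOf l q P) u' w → pathRel (pathOf l q P) u w := by
  by_cases h1 : ∃ i ≤ l, u = walk (pathOf l q P) i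
  · by_cases h2 : ∃ i ≤ l, u' = walk (pathOf l q P) i
    · obtain ⟨i, hi, rfl⟩ := h1
      obtain ⟨j, hj, rfl⟩ := h2
      rw [lay_walk _ (by omega), lay_walk _ (by omega)] at h
      rw [h]
      exact Or.inl fun _ h => h
    · right
      rintro w ⟨i, hi, h3, _⟩
      exact absurd ⟨i, hi, h3⟩ h2
  · left
    rintro w ⟨i, hi, h3, _⟩
    exact absurd ⟨i, hi, h3⟩ h1

end Instances

theorem reach_inst_path {n l q : ℕ} {s t : Fin n} (σ : Cl l q → Fin n)
    (p : Fin l ↪ Fin l × ZMod q) : Reachable (inst s t σ (pathRel p)) s t := by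
  have key : ∀ i ≤ l + 1, Reachable (inst s t σ (pathRel p)) s (σ (walk p i)) := by
    intro i
    induction i with
    | zero =>
      intro _
      exact Relation.ReflTransGen.single (Or.inl rfl)
    | succ i ih =>
      intro hi
      refine (ih (by omega)).tail ?_
      exact Or.inr (Or.inr ⟨_, _, ⟨i, by omega, rfl, rfl⟩, rfl⟩)
  have := key (l + 1) le_rfl
  rw [walk_last p le_rfl] at this
  exact this.tail (Or.inr (Or.inl rfl))

theorem not_reach_inst_cut {n l q : ℕ} {s t : Fin n} (hst : s ≠ t) {σ : Cl l q → Fin n}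
    (hσ : Function.Injective σ) (hσs : ∀ c, σ c ≠ s) (hσt : ∀ c, σ c ≠ t)
    (x : Fin l × ZMod q → Bool) : ¬ Reachable (inst s t σ (cutRel x)) s t := by
  intro h
  have key : ∀ v, Reachable (inst s t σ (cutRel x)) s v →
      v = s ∨ ∃ c, v = σ c ∧ hat x c = true := by
    intro v hv
    induction hv with
    | refl => exact Or.inl rfl
    | @tail b c _ hbc ih =>
      rcases hbc with h | h | ⟨u, w, hD, h⟩
      · obtain ⟨_, rfl⟩ := Prod.mk.injEq _ _ _ _ ▸ h
        exact Or.inr ⟨_, rfl, rfl⟩
      · obtain ⟨rfl, rfl⟩ := Prod.mk.injEq _ _ _ _ ▸ h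
        rcases ih with ih | ⟨c', h1, h2⟩
        · exact absurd ih (hσs _)
        · rw [← hσ h1] at h2
          exact absurd h2 (by simp [hat])
      · obtain ⟨rfl, rfl⟩ := Prod.mk.injEq _ _ _ _ ▸ h
        rcases ih with ih | ⟨c', h1, h2⟩
        · exact absurd ih (hσs _)
        · rw [← hσ h1] at h2
          refine Or.inr ⟨w, rfl, ?_⟩
          by_contra hc
          exact hD.2 ⟨h2, by simpa using hc⟩
  rcases key t h with h | ⟨c, h, _⟩
  · exact hst h.symm
  · exact hσt c h.symm

open Classical in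
theorem paramX {d l q k n : ℕ} [Fact q.Prime] (hd : 2 ≤ d) (hl : 2 ^ d ≤ l) (hlq : l ≤ q)
    {s t : Fin n} (hst : s ≠ t) (X : Finset (Fin n)) (M : Set (Fin n × Fin n))
    (hM : ∀ u ∈ X, ∀ v ∈ X, u ≠ v → (u, v) ∈ M)
    (hX : (l * q + 2) * (8 * k + 1) + 2 ≤ X.card) {W : Type*} [Fintype W]
    (N : SwitchingNetwork (Fin n × Fin n) W)
    (hN : ∀ G : Set (Fin n × Fin n), LayeredNested G → (N.Connects G Gᶜ ↔ Reachable G s t))
    (hneg : ∀ G : Set (Fin n × Fin n), LayeredNested G → Reachable G s t →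
      ∃ F ⊆ Gᶜ, (F ∩ M).encard ≤ k ∧ N.Connects G F) :
    (q : ℝ) ^ (d - 1) ≤ 2 * ((Fintype.card W : ℝ) ^ 2 * (9 * l + 1) ^ d) := by
  have hq0 : NeZero q := ⟨(Fact.out : q.Prime).ne_zero⟩
  set X' := (X.erase s).erase t with hX'
  have hX'card : X.card ≤ X'.card + 2 := by
    have h1 := Finset.pred_card_le_card_erase (s := X) (a := s)
    have h2 := Finset.pred_card_le_card_erase (s := X.erase s) (a := t)
    rw [hX']
    omega
  obtain ⟨S, hSX, hSR, hSd⟩ := exists_blocks (C := Cl l q) X' (8 * k + 1)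
    (by rw [card_Cl]; omega)
  -- the negations used by the network
  have hsel : ∀ G : Set (Fin n × Fin n), ∃ F : Finset (Fin n × Fin n),
      (F.filter (fun e => e ∈ M)).card ≤ k ∧
      (LayeredNested G → Reachable G s t → (F : Set (Fin n × Fin n)) ⊆ Gᶜ ∧ N.Connects G F) := by
    intro G
    by_cases hG : LayeredNested G ∧ Reachable G s t
    · obtain ⟨F, hF, hk, hc⟩ := hneg G hG.1 hG.2
      refine ⟨F.toFinset, ?_, fun _ _ => ⟨by simpa using hF, by simpa using hc⟩⟩
      have h1 : ((F.toFinset.filter (fun e => e ∈ M) : Finset (Fin n × Fin n)) :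
          Set (Fin n × Fin n)) = F ∩ M := by
        ext e; simp
      have h2 : ((F.toFinset.filter (fun e => e ∈ M)).card : ℕ∞) ≤ k := by
        rw [← Set.encard_coe_eq_coe_finsetCard, h1]; exact hk
      exact_mod_cast h2
    · exact ⟨∅, by simp, fun h1 h2 => absurd ⟨h1, h2⟩ hG⟩
  choose Fs hFs1 hFs2 using hsel
  set T : Set (Fin n × Fin n) → Finset (Fin n) := fun G =>
    ((Fs G).filter (fun e => e ∈ M)).image Prod.fst ∪
      ((Fs G).filter (fun e => e ∈ M)).image Prod.snd with hT
  have hTcard : ∀ G, (T G).card ≤ 2 * k := by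
    intro G
    have h1 := card_union_le (((Fs G).filter (fun e => e ∈ M)).image Prod.fst)
      (((Fs G).filter (fun e => e ∈ M)).image Prod.snd)
    have h2 : (((Fs G).filter (fun e => e ∈ M)).image Prod.fst).card ≤ _ := card_image_le
    have h3 : (((Fs G).filter (fun e => e ∈ M)).image Prod.snd).card ≤ _ := card_image_le
    have h4 := hFs1 G
    simp only [hT]
    omega
  -- the family of paths
  have hfin : Finite (Polynomial.degreeLT (ZMod q) (d - 1)) :=
    Finite.of_equiv _ (Polynomial.degreeLTEquiv (ZMod q) (d - 1)).toEquiv.symm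
  have hfin' : Fintype (Polynomial.degreeLT (ZMod q) (d - 1)) := Fintype.ofFinite _
  set Fm := Polynomial.degreeLT (ZMod q) (d - 1) with hFm
  set p : Fm → (Fin l ↪ Fin l × ZMod q) := fun f => pathOf l q f.1 with hp
  set E : Fm → Finset (Cl l q) := fun f =>
    univ.filter (fun c => ∃ i ≤ l + 1, c = walk (p f) i) with hE
  set G : Fm → (Cl l q → Fin n) → Set (Fin n × Fin n) := fun f σ =>
    inst s t σ (pathRel (p f)) with hG
  have hmemE : ∀ f i, i ≤ l + 1 → walk (p f) i ∈ E f := by
    intro f i hi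
    simp only [hE, mem_filter, mem_univ, true_and]
    exact ⟨i, hi, rfl⟩
  obtain ⟨σ, hσP, _, good, hgoodp, hgood⟩ := hide_family (Fm := Fm) S hSd hSR (by omega)
    (k := 2 * k) (by omega) univ (fun e => subset_univ _) ∅ (by simp) E
    (fun f σ => T (G f σ)) (by
      intro f e he σ y
      have hne : ∀ i ≤ l + 1, Function.update σ e y (walk (p f) i) = σ (walk (p f) i) := by
        intro i hi
        rw [Function.update_of_ne]
        intro h
        exact he (h ▸ hmemE f i hi)
      have h0 : Function.update σ e y (Sum.inr true) = σ (Sum.inr true) := hne 0 (by omega)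
      have h1 : Function.update σ e y (Sum.inr false) = σ (Sum.inr false) := by
        have := hne (l + 1) le_rfl
        rwa [walk_last _ le_rfl] at this
      have : G f (Function.update σ e y) = G f σ := by
        ext a
        simp only [hG, inst, Set.mem_ofPred_eq, h0, h1]
        refine or_congr Iff.rfl (or_congr Iff.rfl ?_)
        constructor
        · rintro ⟨u, w, ⟨i, hi, rfl, rfl⟩, h⟩
          rw [hne i (by omega), hne (i + 1) (by omega)] at h
          exact ⟨_, _, ⟨i, hi, rfl, rfl⟩, h⟩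
        · rintro ⟨u, w, ⟨i, hi, rfl, rfl⟩, h⟩
          refine ⟨_, _, ⟨i, hi, rfl, rfl⟩, ?_⟩
          rw [hne i (by omega), hne (i + 1) (by omega)]
          exact h
      simp only [this]) (fun f σ _ => le_trans (card_le_card inter_subset_left) (hTcard _))
  have hσ : ∀ c, σ c ∈ S c := Fintype.mem_piFinset.mp hσP
  have hσX : ∀ c, σ c ∈ X' := fun c => hSX c (hσ c)
  have hσs : ∀ c, σ c ≠ s := by
    intro c h
    have := hσX c
    rw [h] at this
    simp [hX'] at this
  have hσt : ∀ c, σ c ≠ t := by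
    intro c h
    have := hσX c
    rw [h] at this
    simp [hX'] at this
  have hσX2 : ∀ c, σ c ∈ X := by
    intro c
    have := hσX c
    simp only [hX', mem_erase] at this
    exact this.2.2
  have hσi : Function.Injective σ := by
    intro c c' h
    by_contra hne
    have := Finset.disjoint_left.mp (hSd c c' hne) (hσ c)
    rw [h] at this
    exact this (hσ c')
  have hGf : ∀ f, LayeredNested (G f σ) := by
    intro f
    refine inst_nested hst hσi hσs hσt ?_ ?_
    · rintro u w ⟨i, hi, rfl, rfl⟩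
      simp only [hp]
      rw [lay_walk _ (by omega), lay_walk _ (by omega)]
    · intro u u' huu
      exact pathRel_nested f.1 u u' huu
  have hGr : ∀ f, Reachable (G f σ) s t := fun f => reach_inst_path σ (p f)
  set Gx : (Fin l × ZMod q → Bool) → Set (Fin n × Fin n) := fun x =>
    inst s t σ (cutRel x) with hGx
  have hGxn : ∀ x, LayeredNested (Gx x) := fun x =>
    inst_nested hst hσi hσs hσt (fun u w h => h.1) (cutRel_nested x)
  have hGx0 : ∀ x, ¬ Reachable (Gx x) s t := fun x => not_reach_inst_cut hst hσi hσs hσt x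
  set J : W → (Fin l × ZMod q → Bool) → ℝ := fun v x =>
    if Relation.EqvGen (N.Closed (Gx x) (Gx x)ᶜ) N.source v then 1 else 0 with hJ
  have hJstep : ∀ v w x, N.Closed (Gx x) (Gx x)ᶜ v w → J v x = J w x := by
    intro v w x h
    have : Relation.EqvGen (N.Closed (Gx x) (Gx x)ᶜ) N.source v ↔
        Relation.EqvGen (N.Closed (Gx x) (Gx x)ᶜ) N.source w :=
      ⟨fun h' => h'.trans _ _ _ (Relation.EqvGen.rel _ _ h),
        fun h' => h'.trans _ _ _ ((Relation.EqvGen.rel _ _ h).symm _ _)⟩
    simp only [hJ, this]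
  have hJsq : ∀ v x, J v x * J v x ≤ 1 := by
    intro v x
    simp only [hJ]
    split_ifs <;> norm_num
  have hJs : ∀ x, J N.source x = 1 := fun x => if_pos (Relation.EqvGen.refl _)
  have hJt : ∀ x, J N.sink x = 0 := fun x =>
    if_neg (fun h => hGx0 x ((hN (Gx x) (hGxn x)).mp h))
  have hstf : ∀ f : good, Relation.EqvGen (N.Closed (G f.1 σ) (Fs (G f.1 σ))) N.source N.sink :=
    fun f => (hFs2 _ (hGf f.1) (hGr f.1)).2
  have hdis : ∀ f f' : good, f ≠ f' → ∀ S S' : Finset (Fin l),
      S.map (p f.1) = S'.map (p f'.1) → S.card + 2 ≤ d := by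
    intro f f' hne S S' h
    have := family (m := d - 1) hlq f.1 f'.1 (fun h => hne (Subtype.ext h)) S S' h
    omega
  have hL : ∀ (f : good) (v w : W), N.Closed (G f.1 σ) (Fs (G f.1 σ)) v w →
      ∃ i ≤ l, ∀ x, ¬ Cross i (fun j => x (p f.1 j)) → J v x = J w x := by
    intro f v w hvw
    rcases hvw with h | ⟨a, ha, h⟩ | ⟨a, ha, h⟩
    · exact ⟨0, by omega, fun x _ => hJstep v w x (Or.inl h)⟩
    · rcases ha with ha | ha | ⟨u, u', ⟨i, hi, rfl, rfl⟩, ha⟩
      · exact ⟨0, by omega, fun x _ => hJstep v w x (Or.inr (Or.inl ⟨a, Or.inl ha, h⟩))⟩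
      · exact ⟨0, by omega, fun x _ =>
          hJstep v w x (Or.inr (Or.inl ⟨a, Or.inr (Or.inl ha), h⟩))⟩
      · refine ⟨i, hi, fun x hx => hJstep v w x
          (Or.inr (Or.inl ⟨a, Or.inr (Or.inr ⟨_, _, ⟨?_, ?_⟩, ha⟩), h⟩))⟩
        · simp only [hp]
          rw [lay_walk _ (by omega), lay_walk _ (by omega)]
        · rw [hat_walk, hat_walk]
          exact hx
    · refine ⟨0, by omega, fun x _ => hJstep v w x (Or.inr (Or.inr ⟨a, ?_, h⟩))⟩
      have hnot : a ∉ G f.1 σ := (hFs2 _ (hGf f.1) (hGr f.1)).1 ha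
      rintro (hax | hax | ⟨u, u', hD, hax⟩)
      · exact hnot (Or.inl hax)
      · exact hnot (Or.inr (Or.inl hax))
      · have huu : u ≠ u' := by
          rintro rfl
          have := hD.1
          omega
        have haM : a ∈ M := by
          rw [hax]
          exact hM _ (hσX2 u) _ (hσX2 u') (fun h => huu (hσi h))
        have hafil : a ∈ (Fs (G f.1 σ)).filter (fun e => e ∈ M) := mem_filter.mpr ⟨ha, haM⟩
        have h1 : σ u ∈ T (G f.1 σ) := by
          refine mem_union_left _ (mem_image.mpr ⟨a, hafil, ?_⟩)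
          rw [hax]
        have h2 : σ u' ∈ T (G f.1 σ) := by
          refine mem_union_right _ (mem_image.mpr ⟨a, hafil, ?_⟩)
          rw [hax]
        have h3 : u ∈ E f.1 := by
          by_contra hc
          exact hgoodp f.1 f.2 u hc h1
        have h4 : u' ∈ E f.1 := by
          by_contra hc
          exact hgoodp f.1 f.2 u' hc h2
        simp only [hE, mem_filter, mem_univ, true_and] at h3 h4
        obtain ⟨i, hi, rfl⟩ := h3
        obtain ⟨j, hj, rfl⟩ := h4
        have h5 := hD.1
        simp only [hp] at h5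
        rw [lay_walk _ (by omega), lay_walk _ (by omega)] at h5
        subst h5
        exact hnot (Or.inr (Or.inr ⟨_, _, ⟨i, by omega, rfl, rfl⟩, hax⟩))
  have hcore := core (W := W) hd hl (fun f : {x // x ∈ good} => p f.1) hdis J hJsq
    (fun f => N.Closed (G f.1 σ) (Fs (G f.1 σ))) hL hJs hJt hstf
  have hcardF : Fintype.card Fm = q ^ (d - 1) := by
    rw [← Nat.card_eq_fintype_card]; exact card_family
  rw [hcardF] at hgood
  have h1 : ((q ^ (d - 1) : ℕ) : ℝ) ≤ ((2 * good.card : ℕ) : ℝ) := Nat.cast_le.mpr hgood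
  push_cast at h1
  rw [Fintype.card_coe] at hcore
  linarith

theorem layered_empty {V : Type*} : LayeredNested (∅ : Set (V × V)) :=
  ⟨fun _ => 0, fun _ _ h => absurd h (Set.notMem_empty _), fun _ _ _ =>
    Or.inl fun _ h => absurd h (Set.notMem_empty _)⟩

theorem lowerX (d n k : ℕ) (s t : Fin n) (hst : s ≠ t) (X : Finset (Fin n))
    (M : Set (Fin n × Fin n)) (hM : ∀ u ∈ X, ∀ v ∈ X, u ≠ v → (u, v) ∈ M)
    (hX : 2 ^ (4 * d + 20) * (k + 1) ≤ X.card) (W : Type) [Fintype W]
    (N : SwitchingNetwork (Fin n × Fin n) W)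
    (hN : ∀ G : Set (Fin n × Fin n), LayeredNested G → (N.Connects G Gᶜ ↔ Reachable G s t))
    (hneg : ∀ G : Set (Fin n × Fin n), LayeredNested G → Reachable G s t →
      ∃ F ⊆ Gᶜ, (F ∩ M).encard ≤ k ∧ N.Connects G F) :
    2 ^ (d * d) ≤ Fintype.card W := by
  rcases Nat.lt_or_ge d 2 with hd | hd
  · -- small cases
    have hne : N.source ≠ N.sink := by
      intro h
      apply not_reach_empty hst
      refine (hN ∅ layered_empty).mp ?_
      unfold SwitchingNetwork.Connects
      rw [h]
      exact Relation.EqvGen.refl _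
    have h2 : 1 < Fintype.card W := Fintype.one_lt_card_iff.mpr ⟨_, _, hne⟩
    have h3 : d * d ≤ 1 := by
      have : d ≤ 1 := by omega
      nlinarith
    calc 2 ^ (d * d) ≤ 2 ^ 1 := Nat.pow_le_pow_right (by norm_num) h3
      _ ≤ Fintype.card W := h2
  · obtain ⟨q, hqp, hq1, hq2⟩ :=
      Nat.exists_prime_lt_and_le_two_mul (2 ^ (3 * d + 15)) (by positivity)
    have : Fact q.Prime := ⟨hqp⟩
    have hlq : 2 ^ d ≤ q := by
      refine le_trans ?_ hq1.le
      exact Nat.pow_le_pow_right (by norm_num) (by omega)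
    have hcl := clusters_le (d := d) hq2
    have h1 : (2 ^ d * q + 2) * (8 * k + 1) + 2 ≤ X.card := by
      refine le_trans ?_ hX
      have e1 : 2 ^ (4 * d + 20) = 1048576 * (2 ^ d) ^ 4 := by
        rw [pow_add, mul_comm 4 d, pow_mul]; ring
      rw [e1]
      have e2 : 1 ≤ (2 ^ d) ^ 4 := Nat.one_le_pow _ _ (by positivity)
      calc (2 ^ d * q + 2) * (8 * k + 1) + 2
          ≤ (131072 * (2 ^ d) ^ 4) * (8 * k + 1) + 2 := by gcongr
        _ ≤ (131072 * (2 ^ d) ^ 4) * (8 * k + 1) + 131072 * (2 ^ d) ^ 4 := by omega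
        _ ≤ 1048576 * (2 ^ d) ^ 4 * (k + 1) := by nlinarith
    have := states_of_param2 (w := Fintype.card W) (Nat.cast_nonneg _) hd hq1
      (paramX (l := 2 ^ d) (k := k) hd le_rfl hlq hst X M hM h1 N hN hneg)
    exact_mod_cast this

end Pool.Agent.Lib.Pe46137N
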